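import Mathlib

/-!
Definitions for the problem on lineons.
-/

namespace Pool.Agent.Lib_MP_236854_co

/-- A model of `T_Lin` on the vertex set `V`. The language has one `(k+1)`-ary predicate `E k` for
every `k ≥ 0` (so `E k` here is the `E_{k+1}` of the problem); each predicate is symmetric and holds
only on tuples of pairwise distinct elements. -/
structure LinModel (V : Type) where
  E : (k : ℕ) → (Fin (k + 1) → V) → Prop
  symmetric : ∀ (k : ℕ) (x : Fin (k + 1) → V) (σ : Equiv.Perm (Fin (k + 1))), E k x → E k (x ∘ σ)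
  distinct : ∀ (k : ℕ) (x : Fin (k + 1) → V), E k x → Function.Injective x

/-- Isomorphism of models of `T_Lin`. -/
def LinModel.Iso {V W : Type} (M : LinModel V) (N : LinModel W) : Prop :=
  ∃ e : V ≃ W, ∀ k (x : Fin (k + 1) → V), M.E k x ↔ N.E k (e ∘ x)

/-- The submodel of `N` induced on a set `S` of vertices. -/
def LinModel.induce {V : Type} (N : LinModel V) (S : Finset V) : LinModel S where
  E k x := N.E k (fun i => (x i : V))
  symmetric k _ σ h := N.symmetric k _ σ h
  distinct k _ h := fun _ _ hij => N.distinct k _ h (congrArg Subtype.val hij)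

/-- The finite (nonempty) models of `T_Lin`, on the vertex sets `{0, …, n}`, `n = 0, 1, 2, …`. -/
abbrev FinModel := Σ n : ℕ, LinModel (Fin (n + 1))

/-- Isomorphism of finite models, as an equivalence relation. -/
instance isoSetoid : Setoid FinModel where
  r M N := M.2.Iso N.2
  iseqv :=
    { refl := fun _ => ⟨Equiv.refl _, fun _ _ => Iff.rfl⟩
      symm := by
        rintro M N ⟨e, he⟩
        refine ⟨e.symm, fun k x => ?_⟩
        rw [he, ← Function.comp_assoc, Equiv.self_comp_symm, Function.id_comp]
      trans := by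
        rintro M N P ⟨e, he⟩ ⟨f, hf⟩
        exact ⟨e.trans f, fun k x => (he k x).trans (hf k _)⟩ }

/-- The set of isomorphism classes of finite models. -/
abbrev ModelClass := Quotient isoSetoid

/-- `p(M, N)`: the probability that a uniformly random `|M|`-element subset of `V(N)` induces a
submodel isomorphic to `M` (it is `0` if `|M| > |V(N)|`, as then the set in the numerator is
empty). -/
noncomputable def density {V : Type} [Fintype V] (M : FinModel) (N : LinModel V) : ℝ :=
  ({S : Finset V | S.card = M.1 + 1 ∧ M.2.Iso (N.induce S)}.ncard : ℝ) /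
    ((Fintype.card V).choose (M.1 + 1) : ℝ)

theorem density_congr {V : Type} [Fintype V] (N : LinModel V) (M M' : FinModel) (h : M ≈ M') :
    density M N = density M' N := by
  obtain ⟨e, he⟩ := h
  have hc : M.1 = M'.1 := by
    have := Fintype.card_congr e
    simpa using this
  have h' : M' ≈ M := Setoid.symm (show M ≈ M' from ⟨e, he⟩)
  obtain ⟨f, hf⟩ := h'
  have hS : {S : Finset V | S.card = M.1 + 1 ∧ M.2.Iso (N.induce S)} =
      {S : Finset V | S.card = M'.1 + 1 ∧ M'.2.Iso (N.induce S)} := by
    ext S
    constructor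
    · rintro ⟨h1, g, hg⟩
      exact ⟨h1.trans (by rw [hc]), f.trans g, fun k x => (hf k x).trans (hg k _)⟩
    · rintro ⟨h1, g, hg⟩
      exact ⟨h1.trans (by rw [hc]), e.trans g, fun k x => (he k x).trans (hg k _)⟩
  unfold density
  rw [hS, hc]

theorem density_mem {V : Type} [Fintype V] (M : FinModel) (N : LinModel V) :
    density M N ∈ Set.Icc (0 : ℝ) 1 := by
  classical
  unfold density
  refine ⟨by positivity, ?_⟩
  refine div_le_one_of_le₀ ?_ (by positivity)
  have h : {S : Finset V | S.card = M.1 + 1 ∧ M.2.Iso (N.induce S)} ⊆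
      ((Finset.univ : Finset V).powersetCard (M.1 + 1) : Set (Finset V)) := by
    intro S hS
    simpa using hS.1
  have h2 := Set.ncard_le_ncard h (Finset.finite_toSet _)
  rw [Set.ncard_coe_finset, Finset.card_powersetCard, Finset.card_univ] at h2
  exact_mod_cast h2

/-- The point `p(-, N)` of `[0,1]^𝓜`. -/
noncomputable def point {V : Type} [Fintype V] (N : LinModel V) : ModelClass → Set.Icc (0 : ℝ) 1 :=
  Quotient.lift (fun M : FinModel => (⟨density M N, density_mem M N⟩ : Set.Icc (0 : ℝ) 1))
    (fun M M' h => Subtype.ext (density_congr N M M' h))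

/-- The model `M_A` on `𝔽₂^m`: `E_k (x_1, …, x_k)` holds iff `x_1, …, x_k` are pairwise distinct
and `x_1 + ⋯ + x_k ∈ A`. -/
def modelOf {m : ℕ} (A : Set (Fin m → ZMod 2)) : LinModel (Fin m → ZMod 2) where
  E _ x := Function.Injective x ∧ ∑ i, x i ∈ A
  symmetric k x σ h := ⟨h.1.comp σ.injective, by
    have := Equiv.sum_comp σ x
    simpa [Function.comp] using this ▸ h.2⟩
  distinct _ _ h := h.1

/-- Lineons: the accumulation points in `[0,1]^𝓜` (product topology) of the set of all the
points `p(-, M_A)`, `m ≥ 1`, `A ⊆ 𝔽₂^m`. -/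
def IsLineon (x : ModelClass → Set.Icc (0 : ℝ) 1) : Prop :=
  AccPt x (Filter.principal {y | ∃ m : ℕ, 1 ≤ m ∧ ∃ A : Set (Fin m → ZMod 2), y = point (modelOf A)})

/-- The finite model with code `b` on the vertex set `{0, …, n}`: a tuple `x_1, …, x_k` of pairwise
distinct vertices satisfies `E_k` iff the binary digit of `b` at position `2^{x_1} + ⋯ + 2^{x_k}`
is `1`. -/
def codedModel (n b : ℕ) : LinModel (Fin (n + 1)) where
  E _ x := Function.Injective x ∧ b / 2 ^ (∑ i, 2 ^ (x i : ℕ)) % 2 = 1
  symmetric k x σ h := ⟨h.1.comp σ.injective, by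
    have := Equiv.sum_comp σ (fun i => 2 ^ (x i : ℕ))
    simpa [Function.comp] using this ▸ h.2⟩
  distinct _ _ h := h.1

/-- The computable enumeration of the isomorphism classes: all the finite models on the vertex sets
`{0, …, n}` are listed, the `c`-th one being `codedModel n b` where `c` is the standard
(Cantor-style) code `Nat.pair n b` of the pair `(n, b)`; `enum c` is its isomorphism class. -/
def enum (c : ℕ) : ModelClass := Quotient.mk isoSetoid ⟨c.unpair.1, codedModel c.unpair.1 c.unpair.2⟩

/-- The polynomial with rational coefficients, in the variables `X 0, X 1, X 2, …`, that is coded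
by a finite list of terms; a term `((a, b, d), l)` codes `(a - b)/(d + 1) * ∏_{i ∈ l} X i`. -/
noncomputable def toPoly (L : List ((ℕ × ℕ × ℕ) × List ℕ)) : MvPolynomial ℕ ℚ :=
  (L.map fun t => MvPolynomial.C (((t.1.1 : ℚ) - t.1.2.1) / (t.1.2.2 + 1)) *
    (t.2.map MvPolynomial.X).prod).sum

end Pool.Agent.Lib_MP_236854_co
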