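import Mathlib
import Pool.Agent.Lib_MP_236854_co.Defs

/-!
Combinatorial and probabilistic part.
-/

namespace Pool.Agent.Lib_MP_236854_co

open Finset Function

abbrev W (n : ℕ) := Fin n → ZMod 2

theorem LinModel.Iso.refl {V : Type} (M : LinModel V) : M.Iso M :=
  ⟨Equiv.refl _, fun _ _ => Iff.rfl⟩

theorem LinModel.Iso.symm {V W : Type} {M : LinModel V} {N : LinModel W} (h : M.Iso N) :
    N.Iso M := by
  obtain ⟨e, he⟩ := h
  refine ⟨e.symm, fun k x => ?_⟩
  rw [he, ← Function.comp_assoc, Equiv.self_comp_symm, Function.id_comp]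

theorem LinModel.Iso.trans {V W U : Type} {M : LinModel V} {N : LinModel W} {P : LinModel U}
    (h : M.Iso N) (h' : N.Iso P) : M.Iso P := by
  obtain ⟨e, he⟩ := h
  obtain ⟨f, hf⟩ := h'
  exact ⟨e.trans f, fun k x => (he k x).trans (hf k _)⟩

/-- pulled back model -/
def comap {V W : Type} (N : LinModel V) (z : W → V) : LinModel W where
  E k x := N.E k (z ∘ x)
  symmetric k _ σ h := N.symmetric k _ σ h
  distinct k _ h := (N.distinct k _ h).of_comp

theorem comap_iso_induce {V : Type} [DecidableEq V] {r : ℕ} (N : LinModel V) (z : Fin r → V)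
    (hz : Injective z) (S : Finset V) (hS : univ.image z = S) : (comap N z).Iso (N.induce S) := by
  subst hS
  let e : Fin r ≃ (univ.image z : Finset V) :=
    Equiv.ofBijective (fun i => ⟨z i, by simp⟩) ⟨fun i j hij => hz (congrArg Subtype.val hij), by
      rintro ⟨y, hy⟩
      obtain ⟨i, -, hi⟩ := mem_image.1 hy
      exact ⟨i, Subtype.ext hi⟩⟩
  exact ⟨e, fun k x => Iff.rfl⟩

open Classical in
theorem card_inj {V : Type} [Fintype V] (M : FinModel) (N : LinModel V) :
    #{z : Fin (M.1 + 1) → V | Injective z ∧ M.2.Iso (comap N z)} =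
      (M.1 + 1).factorial * #{S : Finset V | S.card = M.1 + 1 ∧ M.2.Iso (N.induce S)} := by
  rw [card_eq_sum_card_fiberwise (f := fun z => univ.image z)
    (t := ({S : Finset V | S.card = M.1 + 1 ∧ M.2.Iso (N.induce S)} : Finset (Finset V)))]
  · rw [mul_comm, ← smul_eq_mul, ← sum_const]
    refine sum_congr rfl fun S hS => ?_
    rw [mem_filter] at hS
    obtain ⟨-, hS1, hS2⟩ := hS
    have e : Fin (M.1 + 1) ≃ S := Fintype.equivOfCardEq (by simp [hS1])
    have h1 : (M.1 + 1).factorial = Fintype.card (Fin (M.1 + 1) ≃ S) := by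
      rw [Fintype.card_equiv e, Fintype.card_fin]
    rw [h1, ← card_univ]
    symm
    refine card_bij (fun f _ => fun i => (f i : V)) ?_ ?_ ?_
    · intro f _
      have hinj : Injective fun i => (f i : V) := fun i j hij => f.injective (Subtype.ext hij)
      have himg : univ.image (fun i => (f i : V)) = S := by
        ext y
        simp only [mem_image, mem_univ, true_and]
        constructor
        · rintro ⟨i, rfl⟩; exact (f i).2
        · intro hy; exact ⟨f.symm ⟨y, hy⟩, by simp⟩
      simp only [mem_filter, mem_univ, true_and]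
      exact ⟨⟨hinj, hS2.trans (comap_iso_induce N _ hinj S himg).symm⟩, himg⟩
    · intro f _ g _ hfg
      ext i
      exact congrFun hfg i
    · intro z hz
      simp only [mem_filter, mem_univ, true_and] at hz
      obtain ⟨⟨hinj, -⟩, himg⟩ := hz
      refine ⟨Equiv.ofBijective (fun i => ⟨z i, by rw [← himg]; simp⟩)
        ⟨fun i j hij => hinj (congrArg Subtype.val hij), ?_⟩, mem_univ _, rfl⟩
      rintro ⟨y, hy⟩
      rw [← himg] at hy
      obtain ⟨i, -, hi⟩ := mem_image.1 hy
      exact ⟨i, Subtype.ext hi⟩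
  · intro z hz
    simp only [coe_filter, mem_univ, true_and, Set.mem_ofPred_eq] at hz ⊢
    refine ⟨by rw [card_image_of_injective _ hz.1]; simp, hz.2.trans (comap_iso_induce N z hz.1 _ rfl)⟩

open Classical in
theorem density_eq {V : Type} [Fintype V] (M : FinModel) (N : LinModel V) :
    density M N = (#{z : Fin (M.1 + 1) → V | Injective z ∧ M.2.Iso (comap N z)} : ℝ) /
      ((Fintype.card V).descFactorial (M.1 + 1) : ℝ) := by
  rw [card_inj, Nat.descFactorial_eq_factorial_mul_choose]
  push_cast
  rw [mul_div_mul_left _ _ (by positivity)]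
  unfold density
  congr 2
  rw [← Set.ncard_coe_finset]
  congr 1
  simp

/-- pattern of a tuple of vectors -/
def pull {n r : ℕ} (A : Set (W n)) (z : Fin r → W n) : LinModel (Fin r) where
  E _ x := Injective x ∧ ∑ i, z (x i) ∈ A
  symmetric k x σ h := ⟨h.1.comp σ.injective, by
    have := Equiv.sum_comp σ (fun i => z (x i))
    simpa [Function.comp] using this ▸ h.2⟩
  distinct _ _ h := h.1

theorem pull_iso_comap {n r : ℕ} (A : Set (W n)) (z : Fin r → W n) (hz : Injective z) :
    (pull A z).Iso (comap (modelOf A) z) :=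
  ⟨Equiv.refl _, fun k x => by
    simp only [pull, comap, modelOf, Equiv.coe_refl, id_comp, hz.of_comp_iff, comp_apply]⟩

open Classical in
/-- number of tuples with a given pattern -/
noncomputable def cnt {n : ℕ} (M : FinModel) (A : Set (W n)) : ℕ :=
  #{z : Fin (M.1 + 1) → W n | M.2.Iso (pull A z)}

/-- proportion of tuples with a given pattern -/
noncomputable def Q {n : ℕ} (M : FinModel) (A : Set (W n)) : ℝ :=
  (cnt M A : ℝ) / (((2 : ℝ) ^ n) ^ (M.1 + 1))

end Pool.Agent.Lib_MP_236854_co
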