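import Mathlib
import Pool.Agent.Lib_MP_236854_co.Math

/-!
Equidistribution and the second moment bound.
-/

namespace Pool.Agent.Lib_MP_236854_co

open Finset Function

/-- averages along a surjective homomorphism of finite groups -/
theorem sum_comp_hom {G H : Type*} [AddCommGroup G] [AddCommGroup H] [Fintype G] [Fintype H]
    (f : G →+ H) (hf : Surjective f) (F : H → ℝ) :
    (Fintype.card H : ℝ) * ∑ x, F (f x) = (Fintype.card G : ℝ) * ∑ y, F y := by
  classical
  have h1 : ∀ y : H, #{x : G | f x = y} = #{x : G | f x = 0} := fun y =>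
    AddMonoidHom.card_fiber_eq_of_mem_range f (hf y) (hf 0)
  have h2 : ∀ F : H → ℝ, ∑ x, F (f x) = (#{x : G | f x = 0} : ℝ) * ∑ y, F y := by
    intro F
    rw [← sum_fiberwise univ f (fun x => F (f x)), mul_sum]
    refine sum_congr rfl fun y _ => ?_
    rw [← h1 y]
    rw [sum_congr rfl (g := fun _ => F y)]
    · simp
    · intro x hx
      rw [(mem_filter.1 hx).2]
  have h3 := h2 (fun _ => 1)
  simp only [sum_const, card_univ, nsmul_eq_mul, mul_one] at h3
  rw [h2, h3]
  ring

theorem card_W (n : ℕ) : Fintype.card (W n) = 2 ^ n := by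
  simp [W, ZMod.card]

open Classical in
/-- few tuples are linearly dependent -/
theorem card_dep {ι : Type} [Fintype ι] [DecidableEq ι] (m : ℕ) :
    (#{y : ι → W m | ¬ LinearIndependent (ZMod 2) y} : ℝ) * 2 ^ m ≤
      2 ^ (Fintype.card ι) * (Fintype.card (ι → W m) : ℝ) := by
  classical
  have h1 : ({y : ι → W m | ¬ LinearIndependent (ZMod 2) y} : Finset (ι → W m)) ⊆
      ({g : ι → ZMod 2 | g ≠ 0} : Finset (ι → ZMod 2)).biUnion fun g =>
        {y : ι → W m | ∑ i, g i • y i = 0} := by
    intro y hy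
    simp only [mem_filter, mem_univ, true_and, Fintype.linearIndependent_iff, not_forall] at hy
    obtain ⟨g, hg, i, hi⟩ := hy
    simp only [mem_biUnion, mem_filter, mem_univ, true_and]
    exact ⟨g, fun h => hi (by simp [h]), hg⟩
  have h2 : ∀ g : ι → ZMod 2, g ≠ 0 →
      (#{y : ι → W m | ∑ i, g i • y i = 0} : ℝ) * 2 ^ m = (Fintype.card (ι → W m) : ℝ) := by
    intro g hg
    obtain ⟨i, hi⟩ := Function.ne_iff.1 hg
    let f : (ι → W m) →+ W m :=
      { toFun := fun y => ∑ i, g i • y i
        map_zero' := by simp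
        map_add' := by intro x y; simp [sum_add_distrib] }
    have hf : Surjective f := by
      intro w
      refine ⟨Pi.single i ((g i)⁻¹ • w), ?_⟩
      change ∑ j, g j • (Pi.single i ((g i)⁻¹ • w) : ι → W m) j = w
      rw [sum_eq_single i]
      · rw [Pi.single_eq_same, smul_smul, mul_inv_cancel₀ hi, one_smul]
      · intro j _ hj
        rw [Pi.single_eq_of_ne hj, smul_zero]
      · simp
    have h3 := sum_comp_hom f hf (fun w => if w = 0 then 1 else 0)
    simp only [sum_ite_eq', mem_univ, if_true, mul_one] at h3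
    rw [← h3, card_W, mul_comm]
    simp [f, sum_boole]
  have h4 : (#{y : ι → W m | ¬ LinearIndependent (ZMod 2) y} : ℝ) ≤
      ∑ g ∈ ({g : ι → ZMod 2 | g ≠ 0} : Finset (ι → ZMod 2)),
        (#{y : ι → W m | ∑ i, g i • y i = 0} : ℝ) := by
    exact_mod_cast (card_le_card h1).trans card_biUnion_le
  calc (#{y : ι → W m | ¬ LinearIndependent (ZMod 2) y} : ℝ) * 2 ^ m
      ≤ (∑ g ∈ ({g : ι → ZMod 2 | g ≠ 0} : Finset (ι → ZMod 2)),
        (#{y : ι → W m | ∑ i, g i • y i = 0} : ℝ)) * 2 ^ m := by gcongr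
    _ = ∑ g ∈ ({g : ι → ZMod 2 | g ≠ 0} : Finset (ι → ZMod 2)),
        (Fintype.card (ι → W m) : ℝ) := by
        rw [sum_mul]
        exact sum_congr rfl fun g hg => h2 g (mem_filter.1 hg).2
    _ ≤ ∑ g : ι → ZMod 2, (Fintype.card (ι → W m) : ℝ) :=
        sum_le_sum_of_subset_of_nonneg (filter_subset _ _) (fun _ _ _ => by positivity)
    _ = 2 ^ (Fintype.card ι) * (Fintype.card (ι → W m) : ℝ) := by
        rw [sum_const, card_univ, Fintype.card_fun, ZMod.card, nsmul_eq_mul]
        push_cast
        ring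

/-- the linear map `𝔽₂^m → 𝔽₂^n` sending the basis to `z` -/
def lin {n m : ℕ} (z : Fin m → W n) (v : W m) : W n := ∑ j, v j • z j

theorem lin_sum {n m : ℕ} {ι : Type} (z : Fin m → W n) (s : Finset ι) (y : ι → W m) :
    lin z (∑ i ∈ s, y i) = ∑ i ∈ s, lin z (y i) := by
  unfold lin
  rw [sum_comm]
  refine sum_congr rfl fun j _ => ?_
  rw [Finset.sum_apply, sum_smul]

/-- random linear images of linearly independent vectors are independent and uniform -/
theorem sum_lin {n m : ℕ} {ι : Type} [Fintype ι] [DecidableEq ι] (y : ι → W m)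
    (hy : LinearIndependent (ZMod 2) y) (F : (ι → W n) → ℝ) :
    (Fintype.card (ι → W n) : ℝ) * ∑ z : Fin m → W n, F (fun i => lin z (y i)) =
      (Fintype.card (Fin m → W n) : ℝ) * ∑ w, F w := by
  let f : (Fin m → W n) →+ (ι → W n) :=
    { toFun := fun z i => lin z (y i)
      map_zero' := by ext; simp [lin]
      map_add' := by intro a b; ext i j; simp [lin, sum_add_distrib] }
  refine sum_comp_hom f ?_ F
  intro w
  obtain ⟨L, hL⟩ : ∃ L : W m →ₗ[ZMod 2] W n, ∀ i, L (y i) = w i := by
    let b := Module.Basis.extend hy.linearIndepOn_id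
    refine ⟨b.constr (ZMod 2) (fun v => if h : (v : W m) ∈ Set.range y then w (Classical.choose h)
      else 0), fun i => ?_⟩
    have hmem : y i ∈ hy.linearIndepOn_id.extend (Set.subset_univ _) :=
      LinearIndepOn.subset_extend _ _ (Set.mem_range_self i)
    have hb : b ⟨y i, hmem⟩ = y i := Module.Basis.extend_apply_self _ _
    conv_lhs => rw [← hb]
    rw [Module.Basis.constr_basis]
    have hr : y i ∈ Set.range y := Set.mem_range_self i
    rw [dif_pos hr]
    congr 1
    exact hy.injective (Classical.choose_spec hr)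
  refine ⟨fun j => L (Pi.single j 1), ?_⟩
  funext i
  change lin (fun j => L (Pi.single j 1)) (y i) = w i
  rw [← hL]
  unfold lin
  conv_rhs => rw [pi_eq_sum_univ' (y i)]
  rw [map_sum]
  refine sum_congr rfl fun j _ => ?_
  rw [map_smul]

end Pool.Agent.Lib_MP_236854_co
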