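import Mathlib

/-!
Arithmetic coding of the inequalities and the proof that the enumeration is primitive recursive.
-/

namespace Pool.Agent.Lib_MP_236854_co

open Finset

/-- the `i`-th digit of `a` in base `B` -/
def dig (B a i : ℕ) : ℕ := a / B ^ i % B

/-- the image of the set coded by `I` under the self-map of `{0,…,n-1}` coded by `s` -/
def imgC (n s I : ℕ) : ℕ := ∑ i ∈ range n, dig 2 I i * 2 ^ (dig n s i)

/-- isomorphism of coded models -/
def isoC (n b b' : ℕ) : Prop :=
  ∃ s < n ^ n, (∀ i < n, ∀ j < n, dig n s i = dig n s j → i = j) ∧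
    ∀ I < 2 ^ n, I ≠ 0 → dig 2 b I = dig 2 b' (imgC n s I)

/-- minimal codes -/
def repC (m b : ℕ) : Prop := ∀ b' < b, ¬ isoC m b' b

/-- code of the vector sum over the set coded by `I` of the vectors coded by `Y` -/
def xsC (m k Y I : ℕ) : ℕ :=
  ∑ j ∈ range m, 2 ^ j * ((∑ i ∈ range k, dig 2 I i * dig 2 (dig (2 ^ m) Y i) j) % 2)

/-- membership of the vector sum in the coded set, as a bit -/
def memC (b x : ℕ) : ℕ := if x = 0 then 0 else dig 2 b x

/-- code of the pattern -/
def patC (m b k Y : ℕ) : ℕ := ∑ I ∈ range (2 ^ k), 2 ^ I * memC b (xsC m k Y I)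

open Classical in
/-- number of tuples whose pattern is isomorphic to the model coded by `c` -/
noncomputable def cntC (m b k c : ℕ) : ℕ :=
  ∑ Y ∈ range ((2 ^ m) ^ k), if isoC k c (patC m b k Y) then 1 else 0

/-- codes of polynomials -/
abbrev PolyCode := List ((ℕ × ℕ × ℕ) × List ℕ)

open Classical in
/-- code of the polynomial `(∑_M x_M) - 1`, with `M` ranging over the classes of size `m + 1` -/
noncomputable def poly1 (m : ℕ) : PolyCode :=
  ((0, 1, 0), []) :: (List.range (2 ^ 2 ^ (m + 1))).flatMap fun b =>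
    if repC (m + 1) b then [((1, 0, 0), [Nat.pair m b])] else []

open Classical in
/-- code of the polynomial `4^(k+2)/2^(m+1) - ∑_M x_M (Q(C, M) - x_C)^2` -/
noncomputable def poly2 (m k c : ℕ) : PolyCode :=
  ((4 ^ (k + 2), 0, 2 ^ (m + 1) - 1), []) :: (List.range (2 ^ 2 ^ (m + 1))).flatMap fun b =>
    if repC (m + 1) b then
      [((0, (cntC (m + 1) b (k + 1) c) ^ 2, ((2 ^ (m + 1)) ^ (k + 1)) ^ 2 - 1), [Nat.pair m b]),
       ((2 * cntC (m + 1) b (k + 1) c, 0, (2 ^ (m + 1)) ^ (k + 1) - 1),
          [Nat.pair m b, Nat.pair k c]),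
       ((0, 1, 0), [Nat.pair m b, Nat.pair k c, Nat.pair k c])]
    else []

/-- the enumeration of all the inequalities -/
noncomputable def fam (i : ℕ) : PolyCode :=
  if i.unpair.2 = 0 then poly1 i.unpair.1
  else poly2 i.unpair.1 (i.unpair.2 - 1).unpair.1 (i.unpair.2 - 1).unpair.2

section prim

variable {α : Type*} [Primcodable α]

theorem nat_pow_prim : Primrec₂ ((· ^ ·) : ℕ → ℕ → ℕ) := Primrec₂.unpaired'.1 Nat.Primrec.pow

theorem pow_prim {a b : α → ℕ} (ha : Primrec a) (hb : Primrec b) :
    Primrec fun x => a x ^ b x := nat_pow_prim.comp ha hb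

theorem mul_prim {a b : α → ℕ} (ha : Primrec a) (hb : Primrec b) :
    Primrec fun x => a x * b x := Primrec.nat_mul.comp ha hb

theorem add_prim {a b : α → ℕ} (ha : Primrec a) (hb : Primrec b) :
    Primrec fun x => a x + b x := Primrec.nat_add.comp ha hb

theorem sub_prim {a b : α → ℕ} (ha : Primrec a) (hb : Primrec b) :
    Primrec fun x => a x - b x := Primrec.nat_sub.comp ha hb

theorem div_prim {a b : α → ℕ} (ha : Primrec a) (hb : Primrec b) :
    Primrec fun x => a x / b x := Primrec.nat_div.comp ha hb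

theorem mod_prim {a b : α → ℕ} (ha : Primrec a) (hb : Primrec b) :
    Primrec fun x => a x % b x := Primrec.nat_mod.comp ha hb

theorem dig_prim {B a i : α → ℕ} (hB : Primrec B) (ha : Primrec a) (hi : Primrec i) :
    Primrec fun x => dig (B x) (a x) (i x) :=
  mod_prim (div_prim ha (pow_prim hB hi)) hB

theorem sum_prim {N : α → ℕ} {f : α → ℕ → ℕ} (hN : Primrec N) (hf : Primrec₂ f) :
    Primrec fun a => ∑ i ∈ range (N a), f a i := by
  have h : Primrec fun a => Nat.rec (motive := fun _ => ℕ) 0 (fun n IH => IH + f a n) (N a) :=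
    Primrec.nat_rec' (h := fun a (p : ℕ × ℕ) => p.2 + f a p.1) hN (Primrec.const 0)
      (add_prim (Primrec.snd.comp Primrec.snd) (hf.comp Primrec.fst (Primrec.fst.comp Primrec.snd)))
  refine h.of_eq fun a => ?_
  induction N a with
  | zero => simp
  | succ n ih => rw [Finset.sum_range_succ, ← ih]

theorem forall_lt_prim {N : α → ℕ} {p : α → ℕ → Prop} (hN : Primrec N) (hp : PrimrecRel p) :
    PrimrecPred fun a => ∀ i < N a, p a i :=
  ((PrimrecRel.forall_mem_list hp.swap).comp (Primrec.list_range.comp hN) Primrec.id).of_eq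
    (by intro a; simp)

theorem exists_lt_prim {N : α → ℕ} {p : α → ℕ → Prop} (hN : Primrec N) (hp : PrimrecRel p) :
    PrimrecPred fun a => ∃ i < N a, p a i :=
  ((PrimrecRel.exists_mem_list hp.swap).comp (Primrec.list_range.comp hN) Primrec.id).of_eq
    (by intro a; simp)

theorem imp_prim {p q : α → Prop} (hp : PrimrecPred p) (hq : PrimrecPred q) :
    PrimrecPred fun a => p a → q a :=
  (hp.not.or hq).of_eq (by intro a; exact imp_iff_not_or.symm)

theorem imgC_prim {n s I : α → ℕ} (hn : Primrec n) (hs : Primrec s) (hI : Primrec I) :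
    Primrec fun x => imgC (n x) (s x) (I x) := by
  unfold imgC
  refine sum_prim hn ?_
  exact mul_prim (dig_prim (Primrec.const 2) (hI.comp Primrec.fst) Primrec.snd)
    (pow_prim (Primrec.const 2) (dig_prim (hn.comp Primrec.fst) (hs.comp Primrec.fst) Primrec.snd))

theorem isoC_prim {n b b' : α → ℕ} (hn : Primrec n) (hb : Primrec b) (hb' : Primrec b') :
    PrimrecPred fun x => isoC (n x) (b x) (b' x) := by
  unfold isoC
  refine exists_lt_prim (pow_prim hn hn) ?_
  refine PrimrecPred.and ?_ ?_
  · refine forall_lt_prim (hn.comp Primrec.fst) ?_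
    refine forall_lt_prim (hn.comp (Primrec.fst.comp Primrec.fst)) ?_
    refine imp_prim ?_ ?_
    · exact Primrec.eq.comp
        (dig_prim (hn.comp (Primrec.fst.comp (Primrec.fst.comp Primrec.fst)))
          (Primrec.snd.comp (Primrec.fst.comp Primrec.fst)) (Primrec.snd.comp Primrec.fst))
        (dig_prim (hn.comp (Primrec.fst.comp (Primrec.fst.comp Primrec.fst)))
          (Primrec.snd.comp (Primrec.fst.comp Primrec.fst)) Primrec.snd)
    · exact Primrec.eq.comp (Primrec.snd.comp Primrec.fst) Primrec.snd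
  · refine forall_lt_prim (pow_prim (Primrec.const 2) (hn.comp Primrec.fst)) ?_
    refine imp_prim ?_ ?_
    · exact (Primrec.eq.comp Primrec.snd (Primrec.const 0)).not
    · exact Primrec.eq.comp
        (dig_prim (Primrec.const 2) (hb.comp (Primrec.fst.comp Primrec.fst)) Primrec.snd)
        (dig_prim (Primrec.const 2) (hb'.comp (Primrec.fst.comp Primrec.fst))
          (imgC_prim (hn.comp (Primrec.fst.comp Primrec.fst)) (Primrec.snd.comp Primrec.fst)
            Primrec.snd))

theorem repC_prim {m b : α → ℕ} (hm : Primrec m) (hb : Primrec b) :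
    PrimrecPred fun x => repC (m x) (b x) := by
  unfold repC
  refine forall_lt_prim hb ?_
  exact (isoC_prim (hm.comp Primrec.fst) Primrec.snd (hb.comp Primrec.fst)).not

theorem xsC_prim {m k Y I : α → ℕ} (hm : Primrec m) (hk : Primrec k) (hY : Primrec Y)
    (hI : Primrec I) : Primrec fun x => xsC (m x) (k x) (Y x) (I x) := by
  unfold xsC
  refine sum_prim hm ?_
  refine mul_prim (pow_prim (Primrec.const 2) Primrec.snd) ?_
  refine mod_prim ?_ (Primrec.const 2)
  refine sum_prim (hk.comp Primrec.fst) ?_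
  exact mul_prim
    (dig_prim (Primrec.const 2) (hI.comp (Primrec.fst.comp Primrec.fst)) Primrec.snd)
    (dig_prim (Primrec.const 2)
      (dig_prim (pow_prim (Primrec.const 2) (hm.comp (Primrec.fst.comp Primrec.fst)))
        (hY.comp (Primrec.fst.comp Primrec.fst)) Primrec.snd)
      (Primrec.snd.comp Primrec.fst))

theorem memC_prim {b x : α → ℕ} (hb : Primrec b) (hx : Primrec x) :
    Primrec fun a => memC (b a) (x a) := by
  unfold memC
  exact Primrec.ite (Primrec.eq.comp hx (Primrec.const 0)) (Primrec.const 0)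
    (dig_prim (Primrec.const 2) hb hx)

theorem patC_prim {m b k Y : α → ℕ} (hm : Primrec m) (hb : Primrec b) (hk : Primrec k)
    (hY : Primrec Y) : Primrec fun x => patC (m x) (b x) (k x) (Y x) := by
  unfold patC
  refine sum_prim (pow_prim (Primrec.const 2) hk) ?_
  exact mul_prim (pow_prim (Primrec.const 2) Primrec.snd)
    (memC_prim (hb.comp Primrec.fst)
      (xsC_prim (hm.comp Primrec.fst) (hk.comp Primrec.fst) (hY.comp Primrec.fst) Primrec.snd))

open Classical in
theorem cntC_prim {m b k c : α → ℕ} (hm : Primrec m) (hb : Primrec b) (hk : Primrec k)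
    (hc : Primrec c) : Primrec fun x => cntC (m x) (b x) (k x) (c x) := by
  unfold cntC
  refine sum_prim (pow_prim (pow_prim (Primrec.const 2) hm) hk) ?_
  refine Primrec.ite ?_ (Primrec.const 1) (Primrec.const 0)
  exact isoC_prim (hk.comp Primrec.fst) (hc.comp Primrec.fst)
    (patC_prim (hm.comp Primrec.fst) (hb.comp Primrec.fst) (hk.comp Primrec.fst) Primrec.snd)

theorem cons_prim {β : Type*} [Primcodable β] {f : α → β} {g : α → List β} (hf : Primrec f)
    (hg : Primrec g) : Primrec fun x => f x :: g x := Primrec.list_cons.comp hf hg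

open Classical in
theorem poly1_prim {m : α → ℕ} (hm : Primrec m) : Primrec fun x => poly1 (m x) := by
  unfold poly1
  refine cons_prim (Primrec.const _) ?_
  refine Primrec.list_flatMap (Primrec.list_range.comp
    (pow_prim (Primrec.const 2) (pow_prim (Primrec.const 2) (Primrec.succ.comp hm)))) ?_
  refine Primrec.ite (repC_prim (Primrec.succ.comp (hm.comp Primrec.fst)) Primrec.snd) ?_
    (Primrec.const _)
  refine cons_prim ?_ (Primrec.const _)
  refine Primrec.pair (Primrec.const _) ?_
  exact cons_prim (Primrec₂.natPair.comp (hm.comp Primrec.fst) Primrec.snd) (Primrec.const _)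

open Classical in
theorem poly2_prim {m k c : α → ℕ} (hm : Primrec m) (hk : Primrec k) (hc : Primrec c) :
    Primrec fun x => poly2 (m x) (k x) (c x) := by
  unfold poly2
  refine cons_prim ?_ ?_
  · refine Primrec.pair (Primrec.pair ?_ (Primrec.pair (Primrec.const _) ?_)) (Primrec.const _)
    · exact pow_prim (Primrec.const 4) (add_prim hk (Primrec.const 2))
    · exact sub_prim (pow_prim (Primrec.const 2) (Primrec.succ.comp hm)) (Primrec.const 1)
  refine Primrec.list_flatMap (Primrec.list_range.comp
    (pow_prim (Primrec.const 2) (pow_prim (Primrec.const 2) (Primrec.succ.comp hm)))) ?_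
  refine Primrec.ite (repC_prim (Primrec.succ.comp (hm.comp Primrec.fst)) Primrec.snd) ?_
    (Primrec.const _)
  have hm' : Primrec fun p : α × ℕ => m p.1 + 1 := Primrec.succ.comp (hm.comp Primrec.fst)
  have hk' : Primrec fun p : α × ℕ => k p.1 + 1 := Primrec.succ.comp (hk.comp Primrec.fst)
  have hc' : Primrec fun p : α × ℕ => c p.1 := hc.comp Primrec.fst
  have hcnt : Primrec fun p : α × ℕ => cntC (m p.1 + 1) p.2 (k p.1 + 1) (c p.1) :=
    cntC_prim hm' Primrec.snd hk' hc'
  have hB : Primrec fun p : α × ℕ => Nat.pair (m p.1) p.2 :=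
    Primrec₂.natPair.comp (hm.comp Primrec.fst) Primrec.snd
  have hC : Primrec fun p : α × ℕ => Nat.pair (k p.1) (c p.1) :=
    Primrec₂.natPair.comp (hk.comp Primrec.fst) hc'
  have hD : Primrec fun p : α × ℕ => (2 ^ (m p.1 + 1)) ^ (k p.1 + 1) :=
    pow_prim (pow_prim (Primrec.const 2) hm') hk'
  refine cons_prim ?_ (cons_prim ?_ (cons_prim ?_ (Primrec.const _)))
  · refine Primrec.pair (Primrec.pair (Primrec.const _) (Primrec.pair ?_ ?_)) ?_
    · exact pow_prim hcnt (Primrec.const 2)
    · exact sub_prim (pow_prim hD (Primrec.const 2)) (Primrec.const 1)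
    · exact cons_prim hB (Primrec.const _)
  · refine Primrec.pair (Primrec.pair ?_ (Primrec.pair (Primrec.const _) ?_)) ?_
    · exact mul_prim (Primrec.const 2) hcnt
    · exact sub_prim hD (Primrec.const 1)
    · exact cons_prim hB (cons_prim hC (Primrec.const _))
  · exact Primrec.pair (Primrec.const _) (cons_prim hB (cons_prim hC (cons_prim hC (Primrec.const _))))

end prim

theorem fam_prim : Primrec fam := by
  unfold fam
  have h1 : Primrec fun i : ℕ => i.unpair.1 := Primrec.fst.comp Primrec.unpair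
  have h2 : Primrec fun i : ℕ => i.unpair.2 := Primrec.snd.comp Primrec.unpair
  have h3 : Primrec fun i : ℕ => (i.unpair.2 - 1).unpair :=
    Primrec.unpair.comp (sub_prim h2 (Primrec.const 1))
  exact Primrec.ite (Primrec.eq.comp h2 (Primrec.const 0)) (poly1_prim h1)
    (poly2_prim h1 (Primrec.fst.comp h3) (Primrec.snd.comp h3))

end Pool.Agent.Lib_MP_236854_co
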