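import Mathlib
import Pool.Agent.Lib_MP_236854_co.Avg

/-!
Second moment bound.
-/

namespace Pool.Agent.Lib_MP_236854_co

open Finset Function

/-- the set in `𝔽₂^m` seen by a sample `z_1, …, z_m` of vectors of `𝔽₂^n` -/
def smp {n m : ℕ} (A : Set (W n)) (z : Fin m → W n) : Set (W m) := {v | v ≠ 0 ∧ lin z v ∈ A}

theorem sum_ne_zero_of_indep {m r k : ℕ} (y : Fin r → W m) (hy : LinearIndependent (ZMod 2) y)
    (x : Fin (k + 1) → Fin r) (hx : Injective x) : ∑ i, y (x i) ≠ 0 := by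
  intro h
  have h1 := Fintype.linearIndependent_iff.1 (hy.comp x hx) (fun _ => 1) (by simpa using h) 0
  exact one_ne_zero h1

theorem pull_smp {n m r : ℕ} (A : Set (W n)) (z : Fin m → W n) (y : Fin r → W m)
    (hy : LinearIndependent (ZMod 2) y) : pull (smp A z) y = pull A (fun i => lin z (y i)) := by
  unfold pull
  congr 1
  funext k x
  apply propext
  refine and_congr_right fun hx => ?_
  have h := sum_ne_zero_of_indep y hy x hx
  rw [← lin_sum]
  exact ⟨fun h' => h'.2, fun h' => ⟨h, h'⟩⟩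

open Classical in
theorem Q_eq {n : ℕ} (M : FinModel) (A : Set (W n)) :
    Q M A = (∑ w : Fin (M.1 + 1) → W n, if M.2.Iso (pull A w) then (1 : ℝ) else 0) /
      (Fintype.card (Fin (M.1 + 1) → W n) : ℝ) := by
  unfold Q cnt
  rw [sum_boole, Fintype.card_fun, card_W, Fintype.card_fin]
  push_cast
  rfl

theorem Q_mem {n : ℕ} (M : FinModel) (A : Set (W n)) : 0 ≤ Q M A ∧ Q M A ≤ 1 := by
  classical
  rw [Q_eq]
  have h : (0 : ℝ) < (Fintype.card (Fin (M.1 + 1) → W n) : ℝ) := by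
    exact_mod_cast Fintype.card_pos
  refine ⟨div_nonneg (sum_nonneg fun w _ => by positivity) h.le, (div_le_one h).2 ?_⟩
  calc _ ≤ ∑ w : Fin (M.1 + 1) → W n, (1 : ℝ) := sum_le_sum fun w _ => by split_ifs <;> norm_num
    _ = _ := by simp

theorem second_moment {n m : ℕ} (A : Set (W n)) (M : FinModel) :
    (∑ z : Fin m → W n, (Q M (smp A z) - Q M A) ^ 2) * 2 ^ m ≤
      4 ^ (M.1 + 1) * (Fintype.card (Fin m → W n) : ℝ) := by
  classical
  set r := M.1 + 1 with hr
  set q := Q M A with hq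
  have hq01 : 0 ≤ q ∧ q ≤ 1 := Q_mem M A
  set D : ℝ := (Fintype.card (Fin r → W m) : ℝ) with hD
  have hDpos : 0 < D := by rw [hD]; exact_mod_cast Fintype.card_pos
  set Z : ℝ := (Fintype.card (Fin m → W n) : ℝ) with hZ
  have hZpos : 0 < Z := by rw [hZ]; exact_mod_cast Fintype.card_pos
  let g : (Fin r → W n) → ℝ := fun w => (if M.2.Iso (pull A w) then (1 : ℝ) else 0) - q
  let gz : (Fin m → W n) → (Fin r → W m) → ℝ := fun z y =>
    (if M.2.Iso (pull (smp A z) y) then (1 : ℝ) else 0) - q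
  have hgz : ∀ z y, |gz z y| ≤ 1 := by
    intro z y
    simp only [gz]
    rw [abs_le]
    split_ifs <;> constructor <;> linarith [hq01.1, hq01.2]
  have hg0 : ∑ w, g w = 0 := by
    simp only [g]
    rw [sum_sub_distrib, sum_const, card_univ, nsmul_eq_mul, hq, Q_eq]
    have h : (Fintype.card (Fin (M.1 + 1) → W n) : ℝ) ≠ 0 := by
      exact_mod_cast Fintype.card_ne_zero
    rw [mul_div_cancel₀ _ h]
    simp [r]
  have hQz : ∀ z, (Q M (smp A z) - q) * D = ∑ y, gz z y := by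
    intro z
    simp only [gz]
    rw [sum_sub_distrib, sum_const, card_univ, nsmul_eq_mul, sub_mul, Q_eq, hD]
    have h : (Fintype.card (Fin (M.1 + 1) → W m) : ℝ) ≠ 0 := by
      exact_mod_cast Fintype.card_ne_zero
    rw [div_mul_cancel₀ _ h, mul_comm q]
  -- joint tuples
  have hpair : ∀ z, (Q M (smp A z) - q) ^ 2 * D ^ 2 =
      ∑ p : Fin r ⊕ Fin r → W m, gz z (p ∘ Sum.inl) * gz z (p ∘ Sum.inr) := by
    intro z
    rw [← mul_pow, hQz, sq, sum_mul_sum, ← sum_product']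
    refine (Fintype.sum_equiv (Equiv.sumArrowEquivProdArrow (Fin r) (Fin r) (W m)) _ _ ?_).symm
    intro p
    rfl
  have hindep : ∀ p : Fin r ⊕ Fin r → W m, LinearIndependent (ZMod 2) p →
      ∑ z, gz z (p ∘ Sum.inl) * gz z (p ∘ Sum.inr) = 0 := by
    intro p hp
    have h1 : ∀ z, gz z (p ∘ Sum.inl) = g (fun i => lin z (p (Sum.inl i))) := by
      intro z
      simp only [gz, g]
      rw [pull_smp A z (p ∘ Sum.inl) (hp.comp _ Sum.inl_injective)]
      rfl
    have h2 : ∀ z, gz z (p ∘ Sum.inr) = g (fun i => lin z (p (Sum.inr i))) := by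
      intro z
      simp only [gz, g]
      rw [pull_smp A z (p ∘ Sum.inr) (hp.comp _ Sum.inr_injective)]
      rfl
    have h3 := sum_lin (n := n) p hp (fun w => g (w ∘ Sum.inl) * g (w ∘ Sum.inr))
    have h4 : ∑ w : Fin r ⊕ Fin r → W n, g (w ∘ Sum.inl) * g (w ∘ Sum.inr) = 0 := by
      calc _ = ∑ w : (Fin r → W n) × (Fin r → W n), g w.1 * g w.2 := by
            refine Fintype.sum_equiv (Equiv.sumArrowEquivProdArrow (Fin r) (Fin r) (W n)) _ _ ?_
            intro p
            rfl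
        _ = (∑ w, g w) * ∑ w, g w := by rw [sum_mul_sum, ← sum_product']; rfl
        _ = 0 := by rw [hg0, zero_mul]
    rw [h4, mul_zero] at h3
    have h5 : (Fintype.card (Fin r ⊕ Fin r → W n) : ℝ) ≠ 0 := by
      exact_mod_cast Fintype.card_ne_zero
    have h6 := (mul_eq_zero.1 h3).resolve_left h5
    rw [← h6]
    exact sum_congr rfl fun z _ => by rw [h1, h2]; rfl
  have hdep : ∀ p : Fin r ⊕ Fin r → W m,
      ∑ z, gz z (p ∘ Sum.inl) * gz z (p ∘ Sum.inr) ≤ Z := by
    intro p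
    calc _ ≤ ∑ z : Fin m → W n, (1 : ℝ) := by
          refine sum_le_sum fun z _ => ?_
          calc _ ≤ |gz z (p ∘ Sum.inl) * gz z (p ∘ Sum.inr)| := le_abs_self _
            _ = |gz z (p ∘ Sum.inl)| * |gz z (p ∘ Sum.inr)| := abs_mul _ _
            _ ≤ 1 := mul_le_one₀ (hgz _ _) (abs_nonneg _) (hgz _ _)
      _ = Z := by simp [Z]
  have hsum : (∑ z : Fin m → W n, (Q M (smp A z) - q) ^ 2) * D ^ 2 ≤
      (#{p : Fin r ⊕ Fin r → W m | ¬ LinearIndependent (ZMod 2) p} : ℝ) * Z := by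
    rw [sum_mul, sum_congr rfl fun z _ => hpair z, sum_comm,
      ← sum_filter_add_sum_filter_not univ (fun p => LinearIndependent (ZMod 2) p)]
    rw [sum_eq_zero (s := univ.filter fun p => LinearIndependent (ZMod 2) p)
      (fun p hp => hindep p (mem_filter.1 hp).2), zero_add]
    calc _ ≤ ∑ p ∈ univ.filter (fun p : Fin r ⊕ Fin r → W m => ¬ LinearIndependent (ZMod 2) p), Z :=
          sum_le_sum fun p _ => hdep p
      _ = _ := by rw [sum_const, nsmul_eq_mul]
  have hcd := card_dep (ι := Fin r ⊕ Fin r) m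
  have hcard : (Fintype.card (Fin r ⊕ Fin r → W m) : ℝ) = D ^ 2 := by
    rw [hD, Fintype.card_congr (Equiv.sumArrowEquivProdArrow (Fin r) (Fin r) (W m)),
      Fintype.card_prod]
    push_cast
    ring
  rw [hcard] at hcd
  have h2r : (2 : ℝ) ^ Fintype.card (Fin r ⊕ Fin r) = 4 ^ r := by
    rw [Fintype.card_sum, Fintype.card_fin, ← two_mul, pow_mul]
    norm_num
  rw [h2r] at hcd
  have key : ((∑ z : Fin m → W n, (Q M (smp A z) - q) ^ 2) * 2 ^ m) * D ^ 2 ≤
      (4 ^ r * Z) * D ^ 2 := by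
    calc _ = ((∑ z : Fin m → W n, (Q M (smp A z) - q) ^ 2) * D ^ 2) * 2 ^ m := by ring
      _ ≤ ((#{p : Fin r ⊕ Fin r → W m | ¬ LinearIndependent (ZMod 2) p} : ℝ) * Z) * 2 ^ m := by
          gcongr
      _ = ((#{p : Fin r ⊕ Fin r → W m | ¬ LinearIndependent (ZMod 2) p} : ℝ) * 2 ^ m) * Z := by ring
      _ ≤ (4 ^ r * D ^ 2) * Z := by gcongr
      _ = _ := by ring
  exact le_of_mul_le_mul_right key (by positivity)

end Pool.Agent.Lib_MP_236854_co
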