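import Mathlib
import Pool.Agent.Lib_MP_236854_co.Moment
import Pool.Agent.Lib_MP_236854_co.Comp

/-!
Relation of the arithmetic codes with the models.
-/

namespace Pool.Agent.Lib_MP_236854_co

open Finset Function

theorem dig_code {B n : ℕ} (f : Fin n → Fin B) (i : Fin n) :
    dig B (∑ j, (f j : ℕ) * B ^ (j : ℕ)) i = f i := by
  rw [← finFunctionFinEquiv_apply f]
  unfold dig
  rw [← finFunctionFinEquiv_symm_apply_val, Equiv.symm_apply_apply]

theorem code_lt {B n : ℕ} (f : Fin n → Fin B) : ∑ j, (f j : ℕ) * B ^ (j : ℕ) < B ^ n := by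
  rw [← finFunctionFinEquiv_apply f]
  exact (finFunctionFinEquiv f).2

theorem exists_code {B n a : ℕ} (h : a < B ^ n) :
    ∃ f : Fin n → Fin B, a = ∑ j, (f j : ℕ) * B ^ (j : ℕ) := by
  refine ⟨finFunctionFinEquiv.symm ⟨a, h⟩, ?_⟩
  rw [← finFunctionFinEquiv_apply, Equiv.apply_symm_apply]

/-- code of a subset of `Fin n` -/
def num {n : ℕ} (I : Finset (Fin n)) : ℕ := ∑ i ∈ I, 2 ^ (i : ℕ)

theorem num_eq {n : ℕ} (I : Finset (Fin n)) :
    num I = ∑ j : Fin n, ((if j ∈ I then 1 else 0 : Fin 2) : ℕ) * 2 ^ (j : ℕ) := by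
  unfold num
  rw [← sum_filter_add_sum_filter_not univ (fun j => j ∈ I)]
  rw [sum_eq_zero (s := univ.filter fun j => ¬ j ∈ I), add_zero]
  · rw [filter_univ_mem]
    exact sum_congr rfl fun j hj => by simp [hj]
  · intro j hj
    simp [(mem_filter.1 hj).2]

theorem num_lt {n : ℕ} (I : Finset (Fin n)) : num I < 2 ^ n := by
  rw [num_eq]
  exact code_lt _

theorem dig_num {n : ℕ} (I : Finset (Fin n)) (i : Fin n) :
    dig 2 (num I) i = if i ∈ I then 1 else 0 := by
  rw [num_eq, dig_code]
  split_ifs <;> rfl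

theorem num_inj {n : ℕ} : Injective (num : Finset (Fin n) → ℕ) := by
  intro I J h
  ext i
  have h1 := dig_num I i
  have h2 := dig_num J i
  rw [h, h2] at h1
  by_cases hI : i ∈ I <;> by_cases hJ : i ∈ J <;> simp_all

theorem num_empty {n : ℕ} : num (∅ : Finset (Fin n)) = 0 := by simp [num]

theorem num_ne_zero {n : ℕ} {I : Finset (Fin n)} (h : I.Nonempty) : num I ≠ 0 := by
  intro h0
  rw [← num_empty (n := n)] at h0
  exact h.ne_empty (num_inj h0)

theorem exists_num {n a : ℕ} (h : a < 2 ^ n) : ∃ I : Finset (Fin n), a = num I := by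
  obtain ⟨f, hf⟩ := exists_code h
  refine ⟨univ.filter fun i => f i = 1, ?_⟩
  rw [num_eq, hf]
  refine sum_congr rfl fun j _ => ?_
  congr 2
  simp only [mem_filter, mem_univ, true_and]
  split_ifs with h1
  · exact h1
  · revert h1
    generalize f j = t
    revert t
    decide

theorem forall_inj_iff {V : Type} [DecidableEq V] (P : Finset V → Prop) :
    (∀ (k : ℕ) (x : Fin (k + 1) → V), Injective x → P (univ.image x)) ↔
      ∀ J : Finset V, J.Nonempty → P J := by
  constructor
  · intro h J hJ
    obtain ⟨k, hk⟩ : ∃ k, J.card = k + 1 := ⟨J.card - 1, by have := hJ.card_pos; omega⟩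
    have e : Fin (k + 1) ≃ J := Fintype.equivOfCardEq (by simp [hk])
    have h1 := h k (fun i => (e i : V)) (fun i j hij => e.injective (Subtype.ext hij))
    have h2 : univ.image (fun i => (e i : V)) = J := by
      ext y
      simp only [mem_image, mem_univ, true_and]
      constructor
      · rintro ⟨i, rfl⟩; exact (e i).2
      · intro hy; exact ⟨e.symm ⟨y, hy⟩, by simp⟩
    rwa [h2] at h1
  · intro h k x _
    exact h _ ⟨x 0, by simp⟩

theorem sum_pow_eq {n k : ℕ} (x : Fin (k + 1) → Fin n) (hx : Injective x) :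
    ∑ i, 2 ^ (x i : ℕ) = num (univ.image x) := by
  unfold num
  rw [sum_image (fun _ _ _ _ h => hx h)]

theorem dig_two (b i : ℕ) : dig 2 b i = 0 ∨ dig 2 b i = 1 := by
  unfold dig
  omega

theorem imgC_eq {n : ℕ} (f : Fin n → Fin n) (J : Finset (Fin n)) :
    imgC n (∑ j, (f j : ℕ) * n ^ (j : ℕ)) (num J) = ∑ j ∈ J, 2 ^ (f j : ℕ) := by
  unfold imgC
  rw [sum_range, ← sum_filter_add_sum_filter_not univ (fun j => j ∈ J),
    sum_eq_zero (s := univ.filter fun j => ¬ j ∈ J), add_zero]
  · rw [filter_univ_mem]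
    refine sum_congr rfl fun j hj => ?_
    rw [dig_num, dig_code, if_pos hj, one_mul]
  · intro j hj
    rw [dig_num, if_neg (mem_filter.1 hj).2, zero_mul]

theorem codedModel_iso_iff (n b b' : ℕ) (e : Fin (n + 1) ≃ Fin (n + 1)) :
    (∀ k (x : Fin (k + 1) → Fin (n + 1)), (codedModel n b).E k x ↔ (codedModel n b').E k (e ∘ x)) ↔
      ∀ J : Finset (Fin (n + 1)), J.Nonempty →
        dig 2 b (num J) = dig 2 b' (∑ j ∈ J, 2 ^ (e j : ℕ)) := by
  rw [← forall_inj_iff (V := Fin (n + 1))
    (fun J => dig 2 b (num J) = dig 2 b' (∑ j ∈ J, 2 ^ (e j : ℕ)))]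
  refine forall_congr' fun k => forall_congr' fun x => ?_
  simp only [codedModel, e.injective.of_comp_iff]
  constructor
  · intro h hx
    have h1 : (Injective x ∧ dig 2 b (num (univ.image x)) = 1) ↔
        (Injective x ∧ dig 2 b' (∑ i, 2 ^ (e (x i) : ℕ)) = 1) := by
      rw [← sum_pow_eq x hx]
      exact h
    simp only [hx, true_and] at h1
    rw [sum_image (fun _ _ _ _ h => hx h)]
    rcases dig_two b (num (univ.image x)) with h2 | h2 <;>
      rcases dig_two b' (∑ i, 2 ^ (e (x i) : ℕ)) with h3 | h3 <;> simp_all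
  · intro h
    refine and_congr_right fun hx => ?_
    have h1 := h hx
    rw [sum_image (fun _ _ _ _ h => hx h), ← sum_pow_eq x hx] at h1
    unfold dig at h1
    rw [h1]
    rfl

theorem isoC_iff (n b b' : ℕ) :
    isoC (n + 1) b b' ↔ (codedModel n b).Iso (codedModel n b') := by
  constructor
  · rintro ⟨s, hs, hinj, hI⟩
    obtain ⟨f, rfl⟩ := exists_code hs
    have hf : Injective f := by
      intro i j hij
      have := hinj i i.2 j j.2 (by rw [dig_code, dig_code, hij])
      exact Fin.ext this
    let e : Fin (n + 1) ≃ Fin (n + 1) := Equiv.ofBijective f (Finite.injective_iff_bijective.1 hf)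
    refine ⟨e, (codedModel_iso_iff n b b' e).2 fun J hJ => ?_⟩
    rw [hI (num J) (num_lt J) (num_ne_zero hJ), imgC_eq]
    rfl
  · rintro ⟨e, he⟩
    rw [codedModel_iso_iff] at he
    refine ⟨∑ j, (e j : ℕ) * (n + 1) ^ (j : ℕ), code_lt _, ?_, ?_⟩
    · intro i hi j hj hij
      have h1 := dig_code (fun j => e j) ⟨i, hi⟩
      have h2 := dig_code (fun j => e j) ⟨j, hj⟩
      simp only at h1 h2
      rw [h1, h2] at hij
      simpa using e.injective (Fin.ext hij)
    · intro I hI hI0
      obtain ⟨J, rfl⟩ := exists_num hI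
      have hJ : J.Nonempty := by
        rw [nonempty_iff_ne_empty]
        rintro rfl
        exact hI0 num_empty
      rw [he J hJ]
      congr 1
      exact (imgC_eq (fun j => e j) J).symm

/-- every model is a coded model -/
theorem exists_coded (n : ℕ) (M : LinModel (Fin (n + 1))) :
    ∃ b < 2 ^ 2 ^ (n + 1), M.Iso (codedModel n b) := by
  classical
  let f : Fin (2 ^ (n + 1)) → Fin 2 := fun a =>
    if ∃ (k : ℕ) (x : Fin (k + 1) → Fin (n + 1)), M.E k x ∧ num (univ.image x) = a then 1 else 0
  refine ⟨∑ j, (f j : ℕ) * 2 ^ (j : ℕ), code_lt f, Equiv.refl _, fun k x => ?_⟩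
  simp only [codedModel, Equiv.coe_refl, id_comp]
  constructor
  · intro h
    have hx := M.distinct k x h
    refine ⟨hx, ?_⟩
    rw [sum_pow_eq x hx]
    have := dig_code f ⟨num (univ.image x), num_lt _⟩
    unfold dig at this
    simp only at this
    rw [this]
    simp only [f]
    rw [if_pos ⟨k, x, h, rfl⟩]
    rfl
  · rintro ⟨hx, h⟩
    rw [sum_pow_eq x hx] at h
    have h1 := dig_code f ⟨num (univ.image x), num_lt _⟩
    unfold dig at h1
    simp only at h1
    rw [h] at h1
    simp only [f] at h1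
    split_ifs at h1 with h2
    · obtain ⟨k', x', hE, hn⟩ := h2
      have hx' := M.distinct k' x' hE
      have himg := num_inj hn
      have hk : k' = k := by
        have := congrArg Finset.card himg
        rw [card_image_of_injective _ hx', card_image_of_injective _ hx] at this
        simpa using this
      subst hk
      have hex : ∀ i, ∃ j, x' j = x i := by
        intro i
        have : x i ∈ univ.image x' := by rw [himg]; simp
        simpa using this
      choose σ hσ using hex
      have hσi : Injective σ := by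
        intro i j hij
        apply hx
        rw [← hσ i, ← hσ j, hij]
      let τ : Equiv.Perm (Fin (k' + 1)) :=
        Equiv.ofBijective σ (Finite.injective_iff_bijective.1 hσi)
      have := M.symmetric k' x' τ hE
      have hcomp : x' ∘ τ = x := funext fun i => hσ i
      rwa [hcomp] at this
    · simp at h1

/-- the canonical representatives -/
noncomputable def reps (m : ℕ) : Finset ℕ := by
  classical
  exact (range (2 ^ 2 ^ (m + 1))).filter fun b => repC (m + 1) b

theorem mem_reps {m b : ℕ} : b ∈ reps m ↔ b < 2 ^ 2 ^ (m + 1) ∧ repC (m + 1) b := by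
  classical
  unfold reps
  simp

theorem exists_rep (n : ℕ) (M : LinModel (Fin (n + 1))) :
    ∃ b ∈ reps n, M.Iso (codedModel n b) := by
  classical
  obtain ⟨b, hb, hiso⟩ := exists_coded n M
  have hex : ∃ b, M.Iso (codedModel n b) := ⟨b, hiso⟩
  refine ⟨Nat.find hex, ?_, Nat.find_spec hex⟩
  rw [mem_reps]
  refine ⟨lt_of_le_of_lt (Nat.find_min' hex hiso) hb, fun b' hb' h => ?_⟩
  rw [isoC_iff] at h
  exact Nat.find_min hex hb' ((Nat.find_spec hex).trans h.symm)

theorem reps_unique {n b b' : ℕ} (hb : b ∈ reps n) (hb' : b' ∈ reps n)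
    (h : (codedModel n b).Iso (codedModel n b')) : b = b' := by
  rw [mem_reps] at hb hb'
  rcases lt_trichotomy b b' with hlt | heq | hgt
  · exact absurd ((isoC_iff n b b').2 h) (hb'.2 b hlt)
  · exact heq
  · exact absurd ((isoC_iff n b' b).2 h.symm) (hb.2 b' hgt)

theorem enum_surjective : Surjective enum := by
  intro c
  induction c using Quotient.inductionOn with
  | h M =>
    obtain ⟨n, M⟩ := M
    obtain ⟨b, -, hb⟩ := exists_coded n M
    refine ⟨Nat.pair n b, ?_⟩
    unfold enum
    rw [Nat.unpair_pair]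
    exact Quotient.sound (s := isoSetoid) hb.symm

end Pool.Agent.Lib_MP_236854_co
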