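import Mathlib
import Pool.Agent.Lib_MP_236854_co.Code

/-!
Coded subsets of `𝔽₂^m`.
-/

namespace Pool.Agent.Lib_MP_236854_co

open Finset Function

/-- support of a vector -/
def supp {m : ℕ} (v : W m) : Finset (Fin m) := univ.filter fun j => v j = 1

theorem zmod2_cases (a : ZMod 2) : a = 0 ∨ a = 1 := by
  revert a; decide

theorem supp_nonempty {m : ℕ} {v : W m} (hv : v ≠ 0) : (supp v).Nonempty := by
  obtain ⟨j, hj⟩ := Function.ne_iff.1 hv
  refine ⟨j, ?_⟩
  simp only [supp, mem_filter, mem_univ, true_and]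
  exact (zmod2_cases (v j)).resolve_left hj

theorem lin_eq_supp {n m : ℕ} (z : Fin m → W n) (v : W m) : lin z v = ∑ j ∈ supp v, z j := by
  unfold lin supp
  rw [sum_filter]
  refine sum_congr rfl fun j _ => ?_
  rcases zmod2_cases (v j) with h | h <;> simp [h]

/-- code of a vector -/
def numv {m : ℕ} (v : W m) : ℕ := num (supp v)

theorem numv_eq {m : ℕ} (v : W m) : numv v = ∑ j : Fin m, 2 ^ (j : ℕ) * (v j).val := by
  unfold numv num supp
  rw [sum_filter]
  refine sum_congr rfl fun j _ => ?_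
  rcases zmod2_cases (v j) with h | h <;> simp [h, ZMod.val_one]

theorem supp_inj {m : ℕ} : Injective (supp : W m → Finset (Fin m)) := by
  intro v w h
  ext j
  have : j ∈ supp v ↔ j ∈ supp w := by rw [h]
  simp only [supp, mem_filter, mem_univ, true_and] at this
  rcases zmod2_cases (v j) with h1 | h1 <;> rcases zmod2_cases (w j) with h2 | h2 <;> simp_all

theorem numv_inj {m : ℕ} : Injective (numv : W m → ℕ) := num_inj.comp supp_inj

theorem numv_zero {m : ℕ} : numv (0 : W m) = 0 := by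
  rw [numv_eq]; simp

/-- the subset of `𝔽₂^m ∖ {0}` with code `b` -/
def codedSet (m b : ℕ) : Set (W m) := {v | v ≠ 0 ∧ dig 2 b (numv v) = 1}

theorem Q_congr {m : ℕ} (M : FinModel) (A A' : Set (W m)) (e : Equiv.Perm (Fin m))
    (h : ∀ v, v ∈ A ↔ v ∘ e ∈ A') : Q M A = Q M A' := by
  classical
  unfold Q cnt
  congr 2
  refine card_bij (fun y _ => fun i => y i ∘ e) ?_ ?_ ?_
  · intro y hy
    simp only [mem_filter, mem_univ, true_and] at hy ⊢
    refine hy.trans ⟨Equiv.refl _, fun k x => ?_⟩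
    simp only [pull, Equiv.coe_refl, id_comp]
    rw [h]
    have : (∑ i, y (x i)) ∘ e = ∑ i, y (x i) ∘ e := by
      ext j
      simp [Finset.sum_apply]
    rw [this]
  · intro y _ y' _ hyy
    funext i j
    have := congrFun (congrFun hyy i) (e.symm j)
    simpa using this
  · intro y hy
    refine ⟨fun i => y i ∘ e.symm, ?_, ?_⟩
    · simp only [mem_filter, mem_univ, true_and] at hy ⊢
      refine hy.trans ⟨Equiv.refl _, fun k x => ?_⟩
      simp only [pull, Equiv.coe_refl, id_comp]
      rw [h]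
      have : (∑ i, y (x i) ∘ e.symm) ∘ e = ∑ i, y (x i) := by
        ext j
        simp [Finset.sum_apply]
      rw [this]
    · funext i j
      simp

theorem coded_pull_iff {n m b : ℕ} (A : Set (W n)) (z : Fin (m + 1) → W n)
    (e : Fin (m + 1) ≃ Fin (m + 1))
    (he : ∀ k (x : Fin (k + 1) → Fin (m + 1)), (codedModel m b).E k x ↔ (pull A z).E k (e ∘ x))
    (J : Finset (Fin (m + 1))) (hJ : J.Nonempty) :
    dig 2 b (num J) = 1 ↔ ∑ j ∈ J, z (e j) ∈ A := by
  revert J
  rw [← forall_inj_iff (V := Fin (m + 1)) (fun J => dig 2 b (num J) = 1 ↔ ∑ j ∈ J, z (e j) ∈ A)]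
  intro k x hx
  have h := he k x
  simp only [codedModel, pull, hx, e.injective.of_comp_iff, true_and, comp_apply] at h
  rw [sum_pow_eq x hx] at h
  rw [sum_image (fun _ _ _ _ h => hx h)]
  exact h

theorem Q_smp_eq {n m b : ℕ} (A : Set (W n)) (z : Fin (m + 1) → W n)
    (h : (codedModel m b).Iso (pull A z)) (M : FinModel) :
    Q M (smp A z) = Q M (codedSet (m + 1) b) := by
  obtain ⟨e, he⟩ := h
  refine Q_congr M _ _ e fun v => ?_
  unfold smp codedSet
  have h0 : v ≠ 0 ↔ v ∘ e ≠ 0 := by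
    rw [not_iff_not]
    constructor
    · rintro rfl; rfl
    · intro h
      funext j
      have := congrFun h (e.symm j)
      simpa using this
  change v ≠ 0 ∧ lin z v ∈ A ↔ v ∘ e ≠ 0 ∧ dig 2 b (numv (v ∘ e)) = 1
  rw [← h0]
  refine and_congr_right fun hv => ?_
  unfold numv
  rw [coded_pull_iff A z e he _ (supp_nonempty (h0.1 hv)), lin_eq_supp]
  have : ∑ j ∈ supp (v ∘ e), z (e j) = ∑ j ∈ supp v, z j := by
    refine sum_bij (fun j _ => e j) ?_ ?_ ?_ ?_
    · intro j hj
      simpa [supp] using hj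
    · intro i _ j _ hij
      exact e.injective hij
    · intro j hj
      refine ⟨e.symm j, ?_, by simp⟩
      simpa [supp] using hj
    · intro j _; rfl
  rw [this]

theorem memC_bit (b x : ℕ) : memC b x < 2 := by
  unfold memC dig
  split_ifs
  · norm_num
  · exact Nat.mod_lt _ (by norm_num)

theorem dig_patC (m b k Y : ℕ) (I : ℕ) (hI : I < 2 ^ k) :
    dig 2 (patC m b k Y) I = memC b (xsC m k Y I) := by
  unfold patC
  rw [sum_range]
  have h := dig_code (B := 2) (n := 2 ^ k)
    (fun I => ⟨memC b (xsC m k Y I), memC_bit _ _⟩) ⟨I, hI⟩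
  simp only at h
  rw [← h]
  congr 1
  exact sum_congr rfl fun j _ => mul_comm _ _

theorem sum_val_mod {m : ℕ} {ι : Type} (J : Finset ι) (y : ι → W m) (j : Fin m) :
    ((∑ i ∈ J, y i) j).val = (∑ i ∈ J, (y i j).val) % 2 := by
  rw [Finset.sum_apply, ← ZMod.val_natCast]
  congr 1
  push_cast
  exact sum_congr rfl fun i _ => (ZMod.natCast_zmod_val _).symm

theorem xsC_eq {m k : ℕ} (y : Fin k → W m) (J : Finset (Fin k)) :
    xsC m k (∑ i, numv (y i) * (2 ^ m) ^ (i : ℕ)) (num J) = numv (∑ i ∈ J, y i) := by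
  have hy : ∀ i : Fin k, dig (2 ^ m) (∑ i, numv (y i) * (2 ^ m) ^ (i : ℕ)) i = numv (y i) :=
    fun i => dig_code (fun i => (⟨numv (y i), num_lt _⟩ : Fin (2 ^ m))) i
  have hv : ∀ (v : W m) (j : Fin m), dig 2 (numv v) j = (v j).val := by
    intro v j
    unfold numv
    rw [dig_num]
    simp only [supp, mem_filter, mem_univ, true_and]
    rcases zmod2_cases (v j) with h | h <;> simp [h, ZMod.val_one]
  unfold xsC
  rw [sum_range, numv_eq]
  refine sum_congr rfl fun j _ => ?_
  congr 1
  rw [sum_val_mod, sum_range]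
  congr 1
  rw [← sum_filter_add_sum_filter_not univ (fun i => i ∈ J),
    sum_eq_zero (s := univ.filter fun i => ¬ i ∈ J), add_zero]
  · rw [filter_univ_mem]
    refine sum_congr rfl fun i hi => ?_
    rw [dig_num, if_pos hi, one_mul, hy, hv]
  · intro i hi
    rw [dig_num, if_neg (mem_filter.1 hi).2, zero_mul]

theorem coded_patC {m b k : ℕ} (y : Fin (k + 1) → W m) :
    codedModel k (patC m b (k + 1) (∑ i, numv (y i) * (2 ^ m) ^ (i : ℕ))) =
      pull (codedSet m b) y := by
  unfold codedModel pull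
  congr 1
  funext l x
  apply propext
  refine and_congr_right fun hx => ?_
  rw [sum_pow_eq x hx]
  have h := dig_patC m b (k + 1) (∑ i, numv (y i) * (2 ^ m) ^ (i : ℕ)) (num (univ.image x))
    (num_lt _)
  unfold dig at h
  rw [h, xsC_eq, sum_image (fun _ _ _ _ h => hx h)]
  have h00 : ∀ v : W m, numv v = 0 ↔ v = 0 := fun v => by
    rw [← numv_zero (m := m), numv_inj.eq_iff]
  unfold memC codedSet
  change (if numv (∑ i, y (x i)) = 0 then 0 else dig 2 b (numv (∑ i, y (x i)))) = 1 ↔
    (∑ i, y (x i)) ≠ 0 ∧ dig 2 b (numv (∑ i, y (x i))) = 1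
  simp only [h00]
  split_ifs with h0 <;> simp [h0]

theorem cntC_eq (m b k c : ℕ) :
    cntC m b (k + 1) c = cnt ⟨k, codedModel k c⟩ (codedSet m b) := by
  classical
  unfold cntC cnt
  rw [← card_filter]
  symm
  refine card_bij (fun y _ => ∑ i, numv (y i) * (2 ^ m) ^ (i : ℕ)) ?_ ?_ ?_
  · intro y hy
    simp only [mem_filter, mem_univ, true_and, mem_range] at hy ⊢
    refine ⟨code_lt (fun i => (⟨numv (y i), num_lt _⟩ : Fin (2 ^ m))), ?_⟩
    rw [isoC_iff, coded_patC]
    exact hy
  · intro y _ y' _ h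
    funext i
    have h1 := dig_code (fun i => (⟨numv (y i), num_lt _⟩ : Fin (2 ^ m))) i
    have h2 := dig_code (fun i => (⟨numv (y' i), num_lt _⟩ : Fin (2 ^ m))) i
    simp only at h1 h2 h
    rw [h, h2] at h1
    exact numv_inj h1.symm
  · intro Y hY
    simp only [mem_filter, mem_range] at hY
    obtain ⟨hY1, hY2⟩ := hY
    obtain ⟨f, hf⟩ := exists_code hY1
    have hsurj : ∀ a : Fin (2 ^ m), ∃ v : W m, numv v = a := by
      intro a
      obtain ⟨I, hI⟩ := exists_num a.2
      refine ⟨fun j => if j ∈ I then 1 else 0, ?_⟩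
      rw [hI]
      unfold numv
      congr 1
      ext j
      simp [supp]
    choose g hg using hsurj
    refine ⟨fun i => g (f i), ?_, ?_⟩
    · simp only [mem_filter, mem_univ, true_and]
      rw [isoC_iff, hf] at hY2
      rw [← coded_patC]
      simpa only [hg] using hY2
    · simp only [hg]
      exact hf.symm

end Pool.Agent.Lib_MP_236854_co
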