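import Mathlib
import Pool.Agent.Lib_MP_236854_co.CodeSet

/-!
Bounds for the points `p(-, M_A)`.
-/

namespace Pool.Agent.Lib_MP_236854_co

open Finset Function

open Classical in
theorem card_injective (n r : ℕ) :
    #{z : Fin r → W n | Injective z} = (2 ^ n).descFactorial r := by
  rw [← card_W n, ← Fintype.card_fin r, ← Fintype.card_embedding_eq, Fintype.card_fin,
    ← Fintype.card_subtype]
  exact Fintype.card_congr (Equiv.subtypeInjectiveEquivEmbedding (Fin r) (W n))

open Classical in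
theorem card_not_injective (n r : ℕ) :
    (#{z : Fin r → W n | ¬ Injective z} : ℝ) ≤ 2 ^ r / 2 ^ n * (((2 : ℝ) ^ n) ^ r) := by
  have h := card_dep (ι := Fin r) n
  have hsub : ({z : Fin r → W n | ¬ Injective z} : Finset (Fin r → W n)) ⊆
      ({z : Fin r → W n | ¬ LinearIndependent (ZMod 2) z} : Finset (Fin r → W n)) := by
    intro z hz
    simp only [mem_filter, mem_univ, true_and] at hz ⊢
    exact fun h => hz h.injective
  have h2 : (#{z : Fin r → W n | ¬ Injective z} : ℝ) ≤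
      (#{z : Fin r → W n | ¬ LinearIndependent (ZMod 2) z} : ℝ) := by
    exact_mod_cast card_le_card hsub
  rw [Fintype.card_fun, card_W, Fintype.card_fin] at h
  push_cast at h
  rw [div_mul_eq_mul_div, le_div_iff₀ (by positivity)]
  calc _ ≤ (#{z : Fin r → W n | ¬ LinearIndependent (ZMod 2) z} : ℝ) * 2 ^ n := by gcongr
    _ ≤ _ := h

open Classical in
theorem card_inj_add (n r : ℕ) :
    ((2 ^ n).descFactorial r : ℝ) + (#{z : Fin r → W n | ¬ Injective z} : ℝ) =
      ((2 : ℝ) ^ n) ^ r := by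
  rw [← card_injective]
  have h := card_filter_add_card_filter_not (s := (univ : Finset (Fin r → W n)))
    (fun z => Injective z)
  rw [card_univ, Fintype.card_fun, card_W, Fintype.card_fin] at h
  exact_mod_cast h

theorem descFactorial_ge (n r : ℕ) (h : r + 1 ≤ n) :
    (((2 : ℝ) ^ n) ^ r) ≤ 2 * ((2 ^ n).descFactorial r : ℝ) := by
  classical
  have h1 := card_inj_add n r
  have h2 := card_not_injective n r
  have h3 : (2 : ℝ) ^ r / 2 ^ n ≤ 1 / 2 := by
    rw [div_le_div_iff₀ (by positivity) (by positivity), one_mul, ← pow_succ]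
    exact pow_le_pow_right₀ (by norm_num) h
  have h4 : (2 : ℝ) ^ r / 2 ^ n * (((2 : ℝ) ^ n) ^ r) ≤ 1 / 2 * (((2 : ℝ) ^ n) ^ r) := by gcongr
  linarith

theorem iso_comap_iff {n r k : ℕ} (M : LinModel (Fin (k + 1))) (A : Set (W n)) (z : Fin r → W n)
    (hz : Injective z) : M.Iso (comap (modelOf A) z) ↔ M.Iso (pull A z) :=
  ⟨fun h => h.trans (pull_iso_comap A z hz).symm, fun h => h.trans (pull_iso_comap A z hz)⟩

open Classical in
theorem density_modelOf {n : ℕ} (M : FinModel) (A : Set (W n)) :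
    density M (modelOf A) =
      (#{z : Fin (M.1 + 1) → W n | Injective z ∧ M.2.Iso (pull A z)} : ℝ) /
      ((2 ^ n).descFactorial (M.1 + 1) : ℝ) := by
  rw [density_eq, card_W]
  congr 3
  ext z
  simp only [mem_filter, mem_univ, true_and]
  exact and_congr_right fun hz => iso_comap_iff M.2 A z hz

theorem density_sub_Q {n : ℕ} (M : FinModel) (A : Set (W n)) :
    |density M (modelOf A) - Q M A| ≤ 2 ^ (M.1 + 1) / 2 ^ n := by
  classical
  set r := M.1 + 1 with hr
  set a : ℝ := (#{z : Fin (M.1 + 1) → W n | Injective z ∧ M.2.Iso (pull A z)} : ℝ) with ha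
  set D : ℝ := ((2 ^ n).descFactorial r : ℝ) with hD
  set N : ℝ := ((2 : ℝ) ^ n) ^ r with hN
  set b : ℝ := (#{z : Fin r → W n | ¬ Injective z} : ℝ) with hb
  have hNpos : 0 < N := by positivity
  have h1 : D + b = N := card_inj_add n r
  have h2 : b ≤ 2 ^ r / 2 ^ n * N := card_not_injective n r
  have hb0 : 0 ≤ b := by positivity
  have ha0 : 0 ≤ a := by positivity
  have hD0 : 0 ≤ D := by positivity
  have haD : a ≤ D := by
    rw [hD, ← card_injective, ha]
    exact_mod_cast card_le_card (fun z hz => by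
      simp only [mem_filter, mem_univ, true_and] at hz ⊢; exact hz.1)
  have hcnt1 : a ≤ (cnt M A : ℝ) := by
    unfold cnt
    rw [ha]
    exact_mod_cast card_le_card (fun z hz => by
      simp only [mem_filter, mem_univ, true_and] at hz ⊢; exact hz.2)
  have hcnt2 : (cnt M A : ℝ) ≤ a + b := by
    unfold cnt
    rw [ha, hb]
    have : ({z : Fin (M.1 + 1) → W n | M.2.Iso (pull A z)} : Finset _) ⊆
        ({z : Fin (M.1 + 1) → W n | Injective z ∧ M.2.Iso (pull A z)} : Finset _) ∪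
        ({z : Fin (M.1 + 1) → W n | ¬ Injective z} : Finset _) := by
      intro z hz
      simp only [mem_filter, mem_univ, true_and, mem_union] at hz ⊢
      by_cases h : Injective z
      · exact Or.inl ⟨h, hz⟩
      · exact Or.inr h
    exact_mod_cast (card_le_card this).trans (card_union_le _ _)
  have hbN : b / N ≤ 2 ^ r / 2 ^ n := by
    rw [div_le_iff₀ hNpos]
    exact h2
  refine le_trans ?_ hbN
  rw [density_modelOf]
  unfold Q
  rw [← ha, ← hr, ← hD, ← hN]
  have hpD : a / D * N = a / D * D + a / D * b := by rw [← h1]; ring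
  have hq1 : a / D ≤ 1 := div_le_one_of_le₀ haD hD0
  have hq0 : 0 ≤ a / D := div_nonneg ha0 hD0
  have haD' : a / D * D = a := by
    rcases hD0.eq_or_lt with h | h
    · rw [← h, mul_zero]
      rw [← h] at haD
      exact (le_antisymm haD ha0).symm
    · exact div_mul_cancel₀ _ h.ne'
  rw [haD'] at hpD
  have hmain : |a / D * N - cnt M A| ≤ b := by
    rw [hpD, abs_le]
    constructor
    · nlinarith
    · nlinarith
  have : a / D - (cnt M A : ℝ) / N = (a / D * N - cnt M A) / N := by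
    rw [sub_div, mul_div_cancel_right₀ _ hNpos.ne']
  rw [this, abs_div, abs_of_pos hNpos]
  gcongr

theorem sum_reps_density {n : ℕ} (m : ℕ) (A : Set (W n)) :
    (∑ b ∈ reps m, density ⟨m, codedModel m b⟩ (modelOf A)) =
      ((2 ^ n).descFactorial (m + 1) : ℝ) / ((2 ^ n).descFactorial (m + 1) : ℝ) := by
  classical
  simp only [density_modelOf]
  rw [← sum_div]
  congr 1
  rw [← card_injective]
  have : ({z : Fin (m + 1) → W n | Injective z} : Finset _) =
      (reps m).biUnion fun b =>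
        {z : Fin (m + 1) → W n | Injective z ∧ (codedModel m b).Iso (pull A z)} := by
    ext z
    simp only [mem_filter, mem_univ, true_and, mem_biUnion]
    constructor
    · intro hz
      obtain ⟨b, hb, hiso⟩ := exists_rep m (pull A z)
      exact ⟨b, hb, hz, hiso.symm⟩
    · rintro ⟨b, -, hz, -⟩
      exact hz
  rw [this, card_biUnion]
  · push_cast
    rfl
  · intro b hb b' hb' hne
    rw [Function.onFun, disjoint_left]
    intro z hz hz'
    simp only [mem_filter, mem_univ, true_and] at hz hz'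
    exact hne (reps_unique hb hb' (hz.2.trans hz'.2.symm))

theorem sum_reps_density_le {n : ℕ} (m : ℕ) (A : Set (W n)) :
    (∑ b ∈ reps m, density ⟨m, codedModel m b⟩ (modelOf A)) ≤ 1 := by
  rw [sum_reps_density]
  exact div_self_le_one _

theorem sum_reps_density_eq_one {n : ℕ} (m : ℕ) (A : Set (W n)) (h : m + 2 ≤ n) :
    (∑ b ∈ reps m, density ⟨m, codedModel m b⟩ (modelOf A)) = 1 := by
  rw [sum_reps_density, div_self]
  have := descFactorial_ge n (m + 1) (by omega)
  have h2 : (0 : ℝ) < ((2 : ℝ) ^ n) ^ (m + 1) := by positivity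
  intro h0
  rw [h0] at this
  linarith

theorem sum_reps_sq {n : ℕ} (m : ℕ) (A : Set (W n)) (M : FinModel) (q : ℝ) :
    (∑ b ∈ reps m, density ⟨m, codedModel m b⟩ (modelOf A) *
      (Q M (codedSet (m + 1) b) - q) ^ 2) * ((2 ^ n).descFactorial (m + 1) : ℝ) ≤
      ∑ z : Fin (m + 1) → W n, (Q M (smp A z) - q) ^ 2 := by
  classical
  rcases Nat.eq_zero_or_pos ((2 ^ n).descFactorial (m + 1)) with h0 | hpos
  · rw [h0, Nat.cast_zero, mul_zero]
    exact sum_nonneg fun z _ => sq_nonneg _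
  have hD : (0 : ℝ) < ((2 ^ n).descFactorial (m + 1) : ℝ) := by exact_mod_cast hpos
  rw [sum_mul]
  have h1 : ∀ b ∈ reps m, density ⟨m, codedModel m b⟩ (modelOf A) *
      (Q M (codedSet (m + 1) b) - q) ^ 2 * ((2 ^ n).descFactorial (m + 1) : ℝ) =
      ∑ z ∈ ({z : Fin (m + 1) → W n | Injective z ∧ (codedModel m b).Iso (pull A z)} : Finset _),
        (Q M (smp A z) - q) ^ 2 := by
    intro b _
    rw [density_modelOf, mul_right_comm]
    rw [div_mul_cancel₀ _ hD.ne']
    rw [sum_congr rfl (g := fun _ => (Q M (codedSet (m + 1) b) - q) ^ 2)]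
    · rw [sum_const, nsmul_eq_mul]
    · intro z hz
      rw [Q_smp_eq A z (mem_filter.1 hz).2.2 M]
  rw [sum_congr rfl h1, ← sum_biUnion]
  · exact sum_le_sum_of_subset_of_nonneg (subset_univ _) fun _ _ _ => sq_nonneg _
  · intro b hb b' hb' hne
    rw [Function.onFun, disjoint_left]
    intro z hz hz'
    simp only [mem_filter, mem_univ, true_and] at hz hz'
    exact hne (reps_unique hb hb' (hz.2.trans hz'.2.symm))

/-- the key inequality satisfied by all the points `p(-, M_A)`, `A ⊆ 𝔽₂^n` with `n` large -/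
theorem key_ineq {n : ℕ} (m : ℕ) (A : Set (W n)) (M : FinModel) (h : m + 2 ≤ n) :
    ∑ b ∈ reps m, density ⟨m, codedModel m b⟩ (modelOf A) *
      (Q M (codedSet (m + 1) b) - density M (modelOf A)) ^ 2 ≤ 4 ^ (M.1 + 2) / 2 ^ (m + 1) := by
  set q := Q M A with hq
  set p := density M (modelOf A) with hp
  have hq01 : 0 ≤ q ∧ q ≤ 1 := Q_mem M A
  have hp01 : 0 ≤ p ∧ p ≤ 1 := density_mem M (modelOf A)
  have hpq : |p - q| ≤ 2 ^ (M.1 + 1) / 2 ^ n := density_sub_Q M A
  set D : ℝ := ((2 ^ n).descFactorial (m + 1) : ℝ) with hD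
  have hDN : (((2 : ℝ) ^ n) ^ (m + 1)) ≤ 2 * D := descFactorial_ge n (m + 1) (by omega)
  have hNpos : (0 : ℝ) < ((2 : ℝ) ^ n) ^ (m + 1) := by positivity
  have hDpos : 0 < D := by linarith
  have h1 := sum_reps_sq m A M q
  have h2 := second_moment (m := m + 1) A M
  rw [Fintype.card_fun, card_W, Fintype.card_fin] at h2
  push_cast at h2
  -- bound with q
  have h3 : ∑ b ∈ reps m, density ⟨m, codedModel m b⟩ (modelOf A) *
      (Q M (codedSet (m + 1) b) - q) ^ 2 ≤ 2 * 4 ^ (M.1 + 1) / 2 ^ (m + 1) := by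
    rw [le_div_iff₀ (by positivity)]
    have h4 : ((∑ b ∈ reps m, density ⟨m, codedModel m b⟩ (modelOf A) *
        (Q M (codedSet (m + 1) b) - q) ^ 2) * 2 ^ (m + 1)) * D ≤
        (2 * 4 ^ (M.1 + 1)) * D := by
      calc _ = ((∑ b ∈ reps m, density ⟨m, codedModel m b⟩ (modelOf A) *
            (Q M (codedSet (m + 1) b) - q) ^ 2) * D) * 2 ^ (m + 1) := by ring
        _ ≤ (∑ z : Fin (m + 1) → W n, (Q M (smp A z) - q) ^ 2) * 2 ^ (m + 1) := by gcongr
        _ ≤ 4 ^ (M.1 + 1) * (((2 : ℝ) ^ n) ^ (m + 1)) := h2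
        _ ≤ 4 ^ (M.1 + 1) * (2 * D) := by gcongr
        _ = _ := by ring
    exact le_of_mul_le_mul_right h4 hDpos
  have h5 : ∀ b ∈ reps m, density ⟨m, codedModel m b⟩ (modelOf A) *
      (Q M (codedSet (m + 1) b) - p) ^ 2 ≤
      density ⟨m, codedModel m b⟩ (modelOf A) * (Q M (codedSet (m + 1) b) - q) ^ 2 +
      density ⟨m, codedModel m b⟩ (modelOf A) * (2 * (2 ^ (M.1 + 1) / 2 ^ n)) := by
    intro b _
    rw [← mul_add]
    refine mul_le_mul_of_nonneg_left ?_ (density_mem _ _).1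
    have hQ := Q_mem M (codedSet (m + 1) b)
    obtain ⟨ha, hb⟩ := abs_le.1 hpq
    rw [abs_le] at hpq
    have h6 : (Q M (codedSet (m + 1) b) - p) ^ 2 - (Q M (codedSet (m + 1) b) - q) ^ 2 =
      (q - p) * (2 * Q M (codedSet (m + 1) b) - p - q) := by ring
    have h7 : (q - p) * (2 * Q M (codedSet (m + 1) b) - p - q) ≤
        |q - p| * |2 * Q M (codedSet (m + 1) b) - p - q| := by
      rw [← abs_mul]; exact le_abs_self _
    have h8 : |q - p| ≤ 2 ^ (M.1 + 1) / 2 ^ n := by
      rw [abs_le]; constructor <;> linarith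
    have h9 : |2 * Q M (codedSet (m + 1) b) - p - q| ≤ 2 := by
      rw [abs_le]; constructor <;> linarith [hQ.1, hQ.2, hq01.1, hq01.2, hp01.1, hp01.2]
    have h10 : |q - p| * |2 * Q M (codedSet (m + 1) b) - p - q| ≤
        2 ^ (M.1 + 1) / 2 ^ n * 2 := by gcongr
    linarith
  have h11 := sum_le_sum h5
  rw [sum_add_distrib, ← sum_mul] at h11
  have h12 := sum_reps_density_le m A
  have h13 : (∑ b ∈ reps m, density ⟨m, codedModel m b⟩ (modelOf A)) *
      (2 * (2 ^ (M.1 + 1) / 2 ^ n)) ≤ 1 * (2 * (2 ^ (M.1 + 1) / 2 ^ n)) := by gcongr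
  have h14 : (2 : ℝ) * (2 ^ (M.1 + 1) / 2 ^ n) ≤ 2 * 4 ^ (M.1 + 1) / 2 ^ (m + 1) := by
    rw [← mul_div_assoc]
    have : (2 : ℝ) ^ (M.1 + 1) ≤ 4 ^ (M.1 + 1) := by gcongr; norm_num
    have : (2 : ℝ) ^ (m + 1) ≤ 2 ^ n := pow_le_pow_right₀ (by norm_num) (by omega)
    gcongr
  calc _ ≤ _ := h11
    _ ≤ 2 * 4 ^ (M.1 + 1) / 2 ^ (m + 1) + 2 * 4 ^ (M.1 + 1) / 2 ^ (m + 1) := by linarith
    _ = 4 ^ (M.1 + 2) / 2 ^ (m + 1) := by ring

end Pool.Agent.Lib_MP_236854_co
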