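import Mathlib
import Pool.Agent.Lib_MP_236854_co.Bounds

/-!
Soundness and completeness of the family of inequalities.
-/

namespace Pool.Agent.Lib_MP_236854_co

open Finset Function Filter Topology

/-- value of a coded polynomial -/
noncomputable def ev (g : ℕ → ℝ) (L : List ((ℕ × ℕ × ℕ) × List ℕ)) : ℝ :=
  (L.map fun t => (((t.1.1 : ℝ) - t.1.2.1) / (t.1.2.2 + 1)) * (t.2.map g).prod).sum

theorem aeval_toPoly (g : ℕ → ℝ) (L : List ((ℕ × ℕ × ℕ) × List ℕ)) :
    MvPolynomial.aeval g (toPoly L) = ev g L := by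
  unfold toPoly ev
  rw [map_list_sum, List.map_map]
  congr 1
  refine List.map_congr_left fun t _ => ?_
  simp only [comp_apply, map_mul, map_list_prod, List.map_map]
  congr 1
  · rw [MvPolynomial.aeval_C]
    simp
  · congr 1
    refine List.map_congr_left fun i _ => ?_
    simp

theorem ev_nil (g : ℕ → ℝ) : ev g [] = 0 := rfl

theorem ev_cons (g : ℕ → ℝ) (t : (ℕ × ℕ × ℕ) × List ℕ) (L : List ((ℕ × ℕ × ℕ) × List ℕ)) :
    ev g (t :: L) = (((t.1.1 : ℝ) - t.1.2.1) / (t.1.2.2 + 1)) * (t.2.map g).prod + ev g L := by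
  unfold ev
  rw [List.map_cons, List.sum_cons]

theorem ev_append (g : ℕ → ℝ) (L L' : List ((ℕ × ℕ × ℕ) × List ℕ)) :
    ev g (L ++ L') = ev g L + ev g L' := by
  unfold ev
  rw [List.map_append, List.sum_append]

theorem ev_flatMap_range (g : ℕ → ℝ) (N : ℕ) (f : ℕ → List ((ℕ × ℕ × ℕ) × List ℕ)) :
    ev g ((List.range N).flatMap f) = ∑ b ∈ range N, ev g (f b) := by
  induction N with
  | zero => simp [ev_nil]
  | succ N ih =>
    rw [List.range_succ, List.flatMap_append, ev_append, ih, sum_range_succ]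
    congr 1
    simp

theorem ev_poly1 (g : ℕ → ℝ) (m : ℕ) :
    ev g (poly1 m) = (∑ b ∈ reps m, g (Nat.pair m b)) - 1 := by
  classical
  unfold poly1 reps
  rw [ev_cons, ev_flatMap_range, sum_filter]
  have : ∀ b ∈ range (2 ^ 2 ^ (m + 1)),
      ev g (if repC (m + 1) b then [((1, 0, 0), [Nat.pair m b])] else []) =
      if repC (m + 1) b then g (Nat.pair m b) else 0 := by
    intro b _
    split_ifs
    · simp [ev]
    · rfl
  rw [sum_congr rfl this]
  simp
  ring

theorem ev_poly2 (g : ℕ → ℝ) (m k c : ℕ) :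
    ev g (poly2 m k c) = 4 ^ (k + 2) / 2 ^ (m + 1) - ∑ b ∈ reps m, g (Nat.pair m b) *
      (Q ⟨k, codedModel k c⟩ (codedSet (m + 1) b) - g (Nat.pair k c)) ^ 2 := by
  classical
  unfold poly2 reps
  rw [ev_cons, ev_flatMap_range, sum_filter]
  have h2 : ∀ a : ℕ, ((2 ^ a - 1 : ℕ) : ℝ) + 1 = 2 ^ a := by
    intro a
    have : 1 ≤ 2 ^ a := Nat.one_le_two_pow
    push_cast [Nat.cast_sub this]
    ring
  have h3 : ((((2 ^ (m + 1)) ^ (k + 1)) - 1 : ℕ) : ℝ) + 1 = ((2 : ℝ) ^ (m + 1)) ^ (k + 1) := by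
    rw [← pow_mul, h2, pow_mul]
  have h4 : (((((2 ^ (m + 1)) ^ (k + 1)) ^ 2) - 1 : ℕ) : ℝ) + 1 =
      (((2 : ℝ) ^ (m + 1)) ^ (k + 1)) ^ 2 := by
    rw [← pow_mul, ← pow_mul, h2, pow_mul, pow_mul]
  have : ∀ b ∈ range (2 ^ 2 ^ (m + 1)),
      ev g (if repC (m + 1) b then
      [((0, (cntC (m + 1) b (k + 1) c) ^ 2, ((2 ^ (m + 1)) ^ (k + 1)) ^ 2 - 1), [Nat.pair m b]),
       ((2 * cntC (m + 1) b (k + 1) c, 0, (2 ^ (m + 1)) ^ (k + 1) - 1),
          [Nat.pair m b, Nat.pair k c]),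
       ((0, 1, 0), [Nat.pair m b, Nat.pair k c, Nat.pair k c])]
      else []) =
      if repC (m + 1) b then -(g (Nat.pair m b) *
      (Q ⟨k, codedModel k c⟩ (codedSet (m + 1) b) - g (Nat.pair k c)) ^ 2) else 0 := by
    intro b _
    split_ifs
    · simp only [ev_cons, ev_nil, List.map_cons, List.map_nil, List.prod_cons, List.prod_nil,
        cntC_eq]
      rw [h3, h4]
      unfold Q
      push_cast
      have : ((2 : ℝ) ^ (m + 1)) ^ (k + 1) ≠ 0 := by positivity
      field_simp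
      ring
    · rfl
  rw [sum_congr rfl this]
  simp only [List.map_nil, List.prod_nil]
  rw [h2, ← sum_filter, ← sum_filter, sum_neg_distrib]
  push_cast
  ring

/-- the value of the `i`-th inequality at a point -/
noncomputable def val (i : ℕ) (x : ModelClass → Set.Icc (0 : ℝ) 1) : ℝ :=
  MvPolynomial.aeval (fun c => (x (enum c) : ℝ)) (toPoly (fam i))

theorem val_continuous (i : ℕ) : Continuous (val i) := by
  unfold val
  have h : ∀ x : ModelClass → Set.Icc (0 : ℝ) 1,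
      MvPolynomial.aeval (fun c => (x (enum c) : ℝ)) (toPoly (fam i)) =
      MvPolynomial.eval (fun c => (x (enum c) : ℝ))
        (MvPolynomial.map (algebraMap ℚ ℝ) (toPoly (fam i))) := by
    intro x
    rw [MvPolynomial.aeval_def, MvPolynomial.eval₂_eq_eval_map]
  simp only [h]
  refine (MvPolynomial.continuous_eval _).comp ?_
  exact continuous_pi fun c => continuous_subtype_val.comp (continuous_apply _)

theorem point_enum {V : Type} [Fintype V] (N : LinModel V) (k c : ℕ) :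
    ((point N (enum (Nat.pair k c)) : Set.Icc (0 : ℝ) 1) : ℝ) =
      density ⟨k, codedModel k c⟩ N := by
  unfold enum point
  rw [Nat.unpair_pair]
  rfl

theorem val_point_nonneg (i : ℕ) : ∃ n₀ : ℕ, ∀ n : ℕ, n₀ ≤ n → ∀ A : Set (W n),
    0 ≤ val i (point (modelOf A)) := by
  refine ⟨i.unpair.1 + 2, fun n hn A => ?_⟩
  unfold val fam
  rw [aeval_toPoly]
  split_ifs with h
  · rw [ev_poly1]
    simp only [point_enum]
    rw [sum_reps_density_eq_one _ A hn]
    simp
  · rw [ev_poly2]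
    simp only [point_enum]
    have := key_ineq i.unpair.1 A ⟨(i.unpair.2 - 1).unpair.1,
      codedModel (i.unpair.2 - 1).unpair.1 (i.unpair.2 - 1).unpair.2⟩ hn
    linarith

theorem sound (x : ModelClass → Set.Icc (0 : ℝ) 1) (hx : IsLineon x) (i : ℕ) : 0 ≤ val i x := by
  by_contra hneg
  push Not at hneg
  obtain ⟨n₀, hn₀⟩ := val_point_nonneg i
  set T : Set (ModelClass → Set.Icc (0 : ℝ) 1) :=
    ⋃ n ∈ Finset.range n₀, Set.range (fun A : Set (W n) => point (modelOf A)) with hT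
  have hTfin : T.Finite := by
    refine Set.Finite.biUnion (Finset.finite_toSet _) fun n _ => ?_
    exact Set.finite_range _
  have hU : {y | val i y < 0} ∩ (T \ {x})ᶜ ∈ 𝓝 x := by
    refine Filter.inter_mem ?_ ?_
    · exact (isOpen_lt (val_continuous i) continuous_const).mem_nhds hneg
    · exact (hTfin.subset Set.sdiff_subset).isClosed.isOpen_compl.mem_nhds (by simp)
  unfold IsLineon at hx
  rw [accPt_iff_nhds] at hx
  obtain ⟨y, ⟨⟨hy1, hy2⟩, m, -, A, rfl⟩, hne⟩ := hx _ hU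
  rcases lt_or_ge m n₀ with h | h
  · apply hy2
    refine ⟨?_, hne⟩
    rw [hT]
    simp only [Set.mem_iUnion]
    exact ⟨m, Finset.mem_range.2 h, A, rfl⟩
  · have h1 := hn₀ m h A
    have h2 : val i (point (modelOf A)) < 0 := hy1
    linarith

/-- a point satisfying all the inequalities is not itself one of the points `p(-, M_A)` -/
theorem ne_point (x : ModelClass → Set.Icc (0 : ℝ) 1)
    (h1 : ∀ m, 1 ≤ ∑ b ∈ reps m, (x (enum (Nat.pair m b)) : ℝ)) (n : ℕ) (A : Set (W n)) :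
    point (modelOf A) ≠ x := by
  rintro rfl
  have h := h1 (2 ^ n)
  simp only [point_enum] at h
  rw [sum_reps_density] at h
  have h0 : (2 ^ n).descFactorial (2 ^ n + 1) = 0 := Nat.descFactorial_eq_zero_iff_lt.2 (by omega)
  rw [h0] at h
  norm_num at h

theorem complete (x : ModelClass → Set.Icc (0 : ℝ) 1)
    (h1 : ∀ m, 1 ≤ ∑ b ∈ reps m, (x (enum (Nat.pair m b)) : ℝ))
    (h2 : ∀ m k c, ∑ b ∈ reps m, (x (enum (Nat.pair m b)) : ℝ) *
      (Q ⟨k, codedModel k c⟩ (codedSet (m + 1) b) - x (enum (Nat.pair k c))) ^ 2 ≤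
        4 ^ (k + 2) / 2 ^ (m + 1)) : IsLineon x := by
  classical
  unfold IsLineon
  rw [accPt_iff_nhds]
  intro U hU
  -- a basic neighbourhood
  obtain ⟨F, ε, hε, hFU⟩ : ∃ (F : Finset ModelClass) (ε : ℝ), 0 < ε ∧
      ∀ y : ModelClass → Set.Icc (0 : ℝ) 1, (∀ c ∈ F, |(y c : ℝ) - x c| < ε) → y ∈ U := by
    rw [nhds_pi, Filter.mem_pi] at hU
    obtain ⟨I, hI, t, ht, htU⟩ := hU
    have hex : ∀ c, ∃ ε : ℝ, 0 < ε ∧ ∀ y : Set.Icc (0 : ℝ) 1, |(y : ℝ) - x c| < ε → y ∈ t c := by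
      intro c
      obtain ⟨ε, hε, hb⟩ := Metric.mem_nhds_iff.1 (ht c)
      refine ⟨ε, hε, fun y hy => hb ?_⟩
      rw [Metric.mem_ball, Subtype.dist_eq, Real.dist_eq]
      exact hy
    choose ε hε hball using hex
    refine ⟨hI.toFinset, (insert 1 (hI.toFinset.image ε)).min' (insert_nonempty _ _), ?_, ?_⟩
    · rw [Finset.lt_min'_iff]
      intro y hy
      rw [mem_insert, mem_image] at hy
      rcases hy with rfl | ⟨c, -, rfl⟩
      · norm_num
      · exact hε c
    · intro y hy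
      apply htU
      intro c hc
      apply hball c
      refine lt_of_lt_of_le (hy c (hI.mem_toFinset.2 hc)) (Finset.min'_le _ _ ?_)
      rw [mem_insert, mem_image]
      exact Or.inr ⟨c, hI.mem_toFinset.2 hc, rfl⟩
  choose e he using enum_surjective
  set kk : ModelClass → ℕ := fun c => (e c).unpair.1 with hkk
  set bb : ModelClass → ℕ := fun c => (e c).unpair.2 with hbb
  have henum : ∀ c, enum (Nat.pair (kk c) (bb c)) = c := by
    intro c
    rw [hkk, hbb]
    simp only [Nat.pair_unpair]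
    exact he c
  set K : ℝ := ∑ c ∈ F, 4 ^ (kk c + 2) with hK
  -- choose m
  have hlim : ∀ C : ℝ, Tendsto (fun m : ℕ => C / 2 ^ (m + 1)) atTop (𝓝 0) := by
    intro C
    have h := (tendsto_pow_atTop_nhds_zero_of_lt_one (r := (1 / 2 : ℝ)) (by norm_num)
      (by norm_num)).comp (tendsto_add_atTop_nat 1)
    have h' := h.const_mul C
    rw [mul_zero] at h'
    refine h'.congr fun m => ?_
    simp only [comp_apply, one_div, inv_pow]
    rw [div_eq_mul_inv]
  obtain ⟨m, hm1, hm2⟩ : ∃ m : ℕ, K / 2 ^ (m + 1) < (ε / 2) ^ 2 ∧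
      ∀ c ∈ F, (2 : ℝ) ^ (kk c + 1) / 2 ^ (m + 1) < ε / 2 := by
    have e1 : ∀ᶠ m : ℕ in atTop, K / 2 ^ (m + 1) < (ε / 2) ^ 2 :=
      (hlim K).eventually_lt_const (by positivity)
    have e2 : ∀ᶠ m : ℕ in atTop, ∀ c ∈ F, (2 : ℝ) ^ (kk c + 1) / 2 ^ (m + 1) < ε / 2 := by
      rw [Filter.eventually_all_finset]
      intro c _
      exact (hlim _).eventually_lt_const (by positivity)
    exact (e1.and e2).exists
  -- choose b
  obtain ⟨b, hb, hbs⟩ : ∃ b ∈ reps m, ∑ c ∈ F,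
      (Q ⟨kk c, codedModel (kk c) (bb c)⟩ (codedSet (m + 1) b) - x c) ^ 2 ≤ K / 2 ^ (m + 1) := by
    by_contra hcon
    push Not at hcon
    have hsum : ∑ b ∈ reps m, (x (enum (Nat.pair m b)) : ℝ) * ∑ c ∈ F,
        (Q ⟨kk c, codedModel (kk c) (bb c)⟩ (codedSet (m + 1) b) - x c) ^ 2 ≤ K / 2 ^ (m + 1) := by
      calc _ = ∑ c ∈ F, ∑ b ∈ reps m, (x (enum (Nat.pair m b)) : ℝ) *
            (Q ⟨kk c, codedModel (kk c) (bb c)⟩ (codedSet (m + 1) b) - x c) ^ 2 := by
            rw [sum_comm]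
            exact sum_congr rfl fun b _ => mul_sum _ _ _
        _ ≤ ∑ c ∈ F, 4 ^ (kk c + 2) / 2 ^ (m + 1) := by
            refine sum_le_sum fun c _ => ?_
            have := h2 m (kk c) (bb c)
            rw [henum c] at this
            exact this
        _ = K / 2 ^ (m + 1) := by rw [hK, sum_div]
    have hpos : ∃ b ∈ reps m, 0 < (x (enum (Nat.pair m b)) : ℝ) := by
      by_contra hno
      push Not at hno
      have := h1 m
      have h0 := sum_nonpos hno
      linarith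
    obtain ⟨b0, hb0, hb0pos⟩ := hpos
    have hK0 : 0 ≤ K / 2 ^ (m + 1) := by
      rw [hK]
      positivity
    have hlt : ∑ b ∈ reps m, (x (enum (Nat.pair m b)) : ℝ) * (K / 2 ^ (m + 1)) <
        ∑ b ∈ reps m, (x (enum (Nat.pair m b)) : ℝ) * ∑ c ∈ F,
        (Q ⟨kk c, codedModel (kk c) (bb c)⟩ (codedSet (m + 1) b) - x c) ^ 2 := by
      refine sum_lt_sum (fun b hb => ?_) ⟨b0, hb0, ?_⟩
      · exact mul_le_mul_of_nonneg_left (hcon b hb).le (x (enum (Nat.pair m b))).2.1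
      · exact mul_lt_mul_of_pos_left (hcon b0 hb0) hb0pos
    rw [← sum_mul] at hlt
    have hge : K / 2 ^ (m + 1) ≤
        (∑ b ∈ reps m, (x (enum (Nat.pair m b)) : ℝ)) * (K / 2 ^ (m + 1)) :=
      le_mul_of_one_le_left hK0 (h1 m)
    linarith
  refine ⟨point (modelOf (codedSet (m + 1) b)), ⟨hFU _ fun c hc => ?_, m + 1, by omega,
    codedSet (m + 1) b, rfl⟩, ne_point x h1 _ _⟩
  have hp : ((point (modelOf (codedSet (m + 1) b)) c : Set.Icc (0 : ℝ) 1) : ℝ) =
      density ⟨kk c, codedModel (kk c) (bb c)⟩ (modelOf (codedSet (m + 1) b)) := by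
    conv_lhs => rw [← henum c]
    exact point_enum _ _ _
  rw [hp]
  have ha := density_sub_Q ⟨kk c, codedModel (kk c) (bb c)⟩ (codedSet (m + 1) b)
  have hb1 := hm2 c hc
  have hsq : (Q ⟨kk c, codedModel (kk c) (bb c)⟩ (codedSet (m + 1) b) - x c) ^ 2 < (ε / 2) ^ 2 := by
    refine lt_of_le_of_lt (le_trans ?_ hbs) hm1
    exact single_le_sum (f := fun c =>
      (Q ⟨kk c, codedModel (kk c) (bb c)⟩ (codedSet (m + 1) b) - (x c : ℝ)) ^ 2)
      (fun _ _ => sq_nonneg _) hc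
  have hc2 : |Q ⟨kk c, codedModel (kk c) (bb c)⟩ (codedSet (m + 1) b) - x c| < ε / 2 :=
    abs_lt_of_sq_lt_sq hsq (by positivity)
  calc _ = |(density ⟨kk c, codedModel (kk c) (bb c)⟩ (modelOf (codedSet (m + 1) b)) -
        Q ⟨kk c, codedModel (kk c) (bb c)⟩ (codedSet (m + 1) b)) +
        (Q ⟨kk c, codedModel (kk c) (bb c)⟩ (codedSet (m + 1) b) - x c)| := by ring_nf
    _ ≤ _ := abs_add_le _ _
    _ < ε / 2 + ε / 2 := by
        refine add_lt_add_of_le_of_lt ?_ hc2
        exact ha.trans hb1.le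
    _ = ε := by ring

theorem main :
    Function.Surjective enum ∧
    ∃ f : ℕ → List ((ℕ × ℕ × ℕ) × List ℕ), Computable f ∧
      ∀ x : ModelClass → Set.Icc (0 : ℝ) 1,
        IsLineon x ↔
          ∀ i, 0 ≤ MvPolynomial.aeval (fun c => (x (enum c) : ℝ)) (toPoly (f i)) := by
  refine ⟨enum_surjective, fam, fam_prim.to_comp, fun x => ⟨fun hx i => sound x hx i, fun h => ?_⟩⟩
  refine complete x (fun m => ?_) (fun m k c => ?_)
  · have := h (Nat.pair m 0)
    rw [aeval_toPoly] at this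
    unfold fam at this
    rw [Nat.unpair_pair, if_pos rfl, ev_poly1] at this
    linarith
  · have := h (Nat.pair m (Nat.pair k c + 1))
    rw [aeval_toPoly] at this
    unfold fam at this
    rw [Nat.unpair_pair, if_neg (Nat.succ_ne_zero _)] at this
    simp only [Nat.add_sub_cancel, Nat.unpair_pair] at this
    rw [ev_poly2] at this
    linarith

end Pool.Agent.Lib_MP_236854_co
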